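import Pool.Agent.PLG.Stmts

/-!
# Squad PLG: elementary lemmas
-/

set_option autoImplicit false

namespace PLG

/-! ## `ZMod 2` -/

theorem z2_add_self (a : ZMod 2) : a + a = 0 := CharTwo.add_self_eq_zero a

theorem z2_eq_of_add {a b : ZMod 2} (h : a + b = 0) : a = b := by
  revert a b; decide

theorem z2_add_eq_zero {a b : ZMod 2} : a + b = 0 ↔ a = b := by
  revert a b; decide

/-! ## ends of an edge -/

theorem mk_hd_tl {V : Type} (e : Sym2 V) : s(hd e, tl e) = e := by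
  unfold hd tl
  exact Quot.out_eq e

theorem adj_hd_tl {V : Type} {G : SimpleGraph V} {e : Sym2 V} (he : e ∈ G.edgeSet) :
    G.Adj (hd e) (tl e) := by
  rw [← mk_hd_tl e] at he
  exact he

theorem hd_ne_tl {V : Type} {G : SimpleGraph V} {e : Sym2 V} (he : e ∈ G.edgeSet) : hd e ≠ tl e :=
  (adj_hd_tl he).ne

theorem mem_iff_hd_tl {V : Type} {e : Sym2 V} {w : V} : w ∈ e ↔ w = hd e ∨ w = tl e := by
  conv_lhs => rw [← mk_hd_tl e]
  exact Sym2.mem_iff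

theorem hd_mem {V : Type} (e : Sym2 V) : hd e ∈ e := mem_iff_hd_tl.2 (Or.inl rfl)

theorem tl_mem {V : Type} (e : Sym2 V) : tl e ∈ e := mem_iff_hd_tl.2 (Or.inr rfl)

/-! ## adjacency -/

theorem ad_symm {x y : ℤ × ℤ} (h : ad x y) : ad y x := by
  unfold ad at *
  omega

theorem ad_ne {x y : ℤ × ℤ} (h : ad x y) : x ≠ y := by
  rintro rfl
  unfold ad at h
  omega

/-- the four neighbours -/
def nb (x : ℤ × ℤ) : Finset (ℤ × ℤ) :=
  {(x.1 + 1, x.2), (x.1 - 1, x.2), (x.1, x.2 + 1), (x.1, x.2 - 1)}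

theorem mem_nb {x y : ℤ × ℤ} : y ∈ nb x ↔ ad x y := by
  obtain ⟨a, b⟩ := x
  obtain ⟨c, d⟩ := y
  unfold nb ad
  simp only [Finset.mem_insert, Finset.mem_singleton, Prod.mk.injEq]
  omega

theorem mem_nb_comm {x y : ℤ × ℤ} : y ∈ nb x ↔ x ∈ nb y := by
  rw [mem_nb, mem_nb]
  exact ⟨ad_symm, ad_symm⟩

theorem bd_eq_sum (σ : ℤ × ℤ → ℤ × ℤ → ZMod 2) (x : ℤ × ℤ) : bd σ x = ∑ y ∈ nb x, σ x y := by
  unfold nb bd
  rw [Finset.sum_insert, Finset.sum_insert, Finset.sum_insert, Finset.sum_singleton]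
  · ring
  · simp only [Finset.mem_singleton, Prod.mk.injEq]
    omega
  · simp only [Finset.mem_insert, Finset.mem_singleton, Prod.mk.injEq]
    omega
  · simp only [Finset.mem_insert, Finset.mem_singleton, Prod.mk.injEq]
    omega

theorem Kept.symm {V : Type} {G : SimpleGraph V} {B : V → Set (ℤ × ℤ)} {n : Sym2 V → ℕ}
    {p : Sym2 V → ℕ → ℤ × ℤ} {x y : ℤ × ℤ} (h : Kept G B n p x y) : Kept G B n p y x := by
  rcases h with ⟨v, h1, h2⟩ | ⟨e, he, i, hi, h⟩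
  · exact Or.inl ⟨v, h2, h1⟩
  · exact Or.inr ⟨e, he, i, hi, h.symm⟩

/-- every point lies in a square -/
theorem mem_cells_floor {M : Set (ℝ × ℝ)} {z : ℝ × ℝ} (hz : z ∈ M) :
    ((⌊z.1⌋, ⌊z.2⌋) : ℤ × ℤ) ∈ cells M :=
  ⟨z, hz, Int.floor_le _, (Int.lt_floor_add_one _).le, Int.floor_le _, (Int.lt_floor_add_one _).le⟩

end PLG
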