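import Pool.Agent.PLG.Api

/-!
# Squad PLG, module BLM: from blobs to paths
-/

set_option autoImplicit false

namespace PLG

theorem blm_proof (hPTH : Stmt_PTH) : Stmt_BLM := by
  intro V _ G B S hB
  have key : ∀ e : Sym2 V, ∃ (n : ℕ) (p : ℕ → ℤ × ℤ), e ∈ G.edgeSet →
      1 ≤ n ∧ p 0 ∈ B (hd e) ∧ p n ∈ B (tl e) ∧ IsW p n ∧ (∀ i ≤ n, p i ∈ S e) ∧
      (∀ i ≤ n, ∀ j ≤ n, p i = p j → i = j) ∧ ∀ i, 0 < i → i < n → p i ∉ B (hd e) ∧ p i ∉ B (tl e) := by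
    intro e
    by_cases he : e ∈ G.edgeSet
    · obtain ⟨n, p, h⟩ := hPTH (S e) (B (hd e)) (B (tl e)) (hB.scon e he) (hB.shd e he) (hB.stl e he)
        (hB.dis _ _ (hd_ne_tl he))
      exact ⟨n, p, fun _ => h⟩
    · exact ⟨0, fun _ => (0, 0), fun h => absurd h he⟩
  choose n p hnp using key
  refine ⟨n, p, ?_⟩
  refine ⟨hB.fin, hB.ne, hB.con, hB.dis, fun e he => (hnp e he).1, fun e he => (hnp e he).2.2.2.1,
    fun e he => (hnp e he).2.2.2.2.2.1, fun e he => (hnp e he).2.1, fun e he => (hnp e he).2.2.1, ?_, ?_⟩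
  · intro e he i hi0 hin w hw
    obtain ⟨-, -, -, -, hS, -, hint⟩ := hnp e he
    by_cases hwe : w ∈ e
    · rcases mem_iff_hd_tl.1 hwe with rfl | rfl
      · exact (hint i hi0 hin).1 hw
      · exact (hint i hi0 hin).2 hw
    · exact Set.disjoint_left.1 (hB.sdis e he w hwe) (hS i hin.le) hw
  · intro e he e' he' hne i hi j hj heq
    have h1 := (hnp e he).2.2.2.2.1 i hi
    have h2 := (hnp e' he').2.2.2.2.1 j hj
    rw [heq] at h1
    exact Set.disjoint_left.1 (hB.ssdis e he e' he' hne) h1 h2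

end PLG
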