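import Pool.Agent.PLG.Api
import Pool.Agent.TCH.Defs

/-!
# Abstract duals and face systems
-/

set_option autoImplicit false

namespace PLG

open Pool.Agent.TCH

namespace Bridge_

theorem sum_mk {V : Type} [Fintype V] [DecidableEq V] (C : Finset (Sym2 V)) (v : V) :
    ∑ u, (if s(v, u) ∈ C then (1 : ZMod 2) else 0) = ((C.filter (fun e => v ∈ e)).card : ZMod 2) := by
  have h1 : C.filter (fun e => v ∈ e) =
      (Finset.univ.filter (fun u => s(v, u) ∈ C)).image (fun u => s(v, u)) := by
    ext e
    simp only [Finset.mem_filter, Finset.mem_image, Finset.mem_univ, true_and]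
    constructor
    · rintro ⟨h1, h2⟩
      obtain ⟨u, rfl⟩ := Sym2.mem_iff_exists.1 h2
      exact ⟨u, h1, rfl⟩
    · rintro ⟨u, h1, rfl⟩
      exact ⟨h1, Sym2.mem_mk_left v u⟩
  have h2 : Function.Injective (fun u : V => s(v, u)) := by
    intro a b hab
    exact Sym2.congr_right.1 hab
  rw [h1, Finset.card_image_of_injective _ h2, Finset.sum_boole]

theorem even_iff {n : ℕ} : Even n ↔ ((n : ℕ) : ZMod 2) = 0 := by
  rw [ZMod.natCast_eq_zero_iff_even]

theorem odd_iff {n : ℕ} : Odd n ↔ ((n : ℕ) : ZMod 2) = 1 := by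
  rw [ZMod.natCast_eq_one_iff_odd]

end Bridge_

open Bridge_ in
theorem faceSys_of_hasDual {V : Type} [Fintype V] [DecidableEq V] (X : SimpleGraph V)
    (h : HasDual X) : FaceSys X := by
  classical
  obtain ⟨F, A, B, hAB⟩ := h
  set Φ : Finset F := Finset.univ.image A ∪ Finset.univ.image B with hΦ
  have hA : ∀ e, A e ∈ Φ := fun e =>
    Finset.mem_union_left _ (Finset.mem_image_of_mem _ (Finset.mem_univ e))
  have hB : ∀ e, B e ∈ Φ := fun e =>
    Finset.mem_union_right _ (Finset.mem_image_of_mem _ (Finset.mem_univ e))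
  let D : {k // k ∈ Φ} → Finset (Sym2 V) := fun k =>
    Finset.univ.filter (fun e => e ∈ X.edgeSet ∧ ((A e = k) ↔ ¬ (B e = k)))
  have hD : ∀ (k : {k // k ∈ Φ}) (e : Sym2 V), e ∈ D k ↔
      (e ∈ X.edgeSet ∧ ((A e = k) ↔ ¬ (B e = k))) := by
    intro k e
    simp only [D, Finset.mem_filter, Finset.mem_univ, true_and]
  have hind : ∀ (k : {k // k ∈ Φ}) (e : Sym2 V), e ∈ X.edgeSet →
      (if e ∈ D k then (1 : ZMod 2) else 0) =
        (if A e = k then 1 else 0) + (if B e = k then 1 else 0) := by
    intro k e he
    by_cases h1 : A e = k <;> by_cases h2 : B e = k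
    · have : e ∉ D k := by rw [hD]; simp [h1, h2]
      rw [if_neg this, if_pos h1, if_pos h2]
      decide
    · have : e ∈ D k := by rw [hD]; exact ⟨he, by simp [h1, h2]⟩
      rw [if_pos this, if_pos h1, if_neg h2, add_zero]
    · have : e ∈ D k := by rw [hD]; exact ⟨he, by simp [h1, h2]⟩
      rw [if_pos this, if_neg h1, if_pos h2, zero_add]
    · have : e ∉ D k := by rw [hD]; simp [h1, h2]
      rw [if_neg this, if_neg h1, if_neg h2, add_zero]
  refine ⟨{k // k ∈ Φ}, inferInstance, D, ?_, ?_, ?_⟩
  · intro k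
    refine ⟨fun e he => ((hD k e).1 he).1, fun v => ?_⟩
    rw [even_iff, ← sum_mk]
    refine ((hAB (fun e => if e ∈ D k then (1 : ZMod 2) else 0) (fun e he => ?_)).2
      ⟨fun f => if f = k then 1 else 0, fun e he => hind k e he⟩) v
    exact if_neg (fun h1 => he ((hD k e).1 h1).1)
  · intro e
    have h1 : (Finset.univ.filter (fun k => e ∈ D k)) ⊆ {⟨A e, hA e⟩, ⟨B e, hB e⟩} := by
      intro k hk
      rw [Finset.mem_filter, hD] at hk
      rw [Finset.mem_insert, Finset.mem_singleton]
      by_cases h2 : A e = k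
      · exact Or.inl (Subtype.ext h2.symm)
      · have h3 : B e = k := by
          by_contra h3
          exact h2 (hk.2.2.2 h3)
        exact Or.inr (Subtype.ext h3.symm)
    exact (Finset.card_le_card h1).trans Finset.card_le_two
  · intro C hC
    obtain ⟨w, hw⟩ := (hAB (fun e => if e ∈ C then (1 : ZMod 2) else 0)
      (fun e he => if_neg (fun h1 => he (hC.1 e h1)))).1 (fun v => by
        rw [sum_mk, ← even_iff]
        exact hC.2 v)
    refine ⟨Finset.univ.filter (fun k => w k = 1), fun e => ?_⟩
    rw [odd_iff]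
    by_cases he : e ∈ X.edgeSet
    · have h1 : (((Finset.univ.filter (fun k : {k // k ∈ Φ} => w k = 1)).filter
          (fun k => e ∈ D k)).card : ZMod 2) = w (A e) + w (B e) := by
        rw [Finset.filter_filter, ← Finset.sum_boole]
        have h2 : ∀ k : {k // k ∈ Φ}, (if w k = 1 ∧ e ∈ D k then (1 : ZMod 2) else 0) =
            (if (⟨A e, hA e⟩ : {k // k ∈ Φ}) = k then w k else 0) +
              (if (⟨B e, hB e⟩ : {k // k ∈ Φ}) = k then w k else 0) := by
          intro k
          have h3 := hind k e he
          have h4 : (if w k = 1 ∧ e ∈ D k then (1 : ZMod 2) else 0) =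
              w k * (if e ∈ D k then (1 : ZMod 2) else 0) := by
            have h5 : w k = 0 ∨ w k = 1 := by
              generalize w k = c
              revert c
              decide
            rcases h5 with h5 | h5 <;> simp [h5]
          rw [h4, h3, mul_add]
          congr 1
          · by_cases h6 : A e = k
            · rw [if_pos h6, if_pos (Subtype.ext h6), mul_one]
            · rw [if_neg h6, if_neg (fun h7 => h6 (congrArg Subtype.val h7)), mul_zero]
          · by_cases h6 : B e = k
            · rw [if_pos h6, if_pos (Subtype.ext h6), mul_one]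
            · rw [if_neg h6, if_neg (fun h7 => h6 (congrArg Subtype.val h7)), mul_zero]
        rw [Finset.sum_congr rfl (fun k _ => h2 k), Finset.sum_add_distrib,
          Finset.sum_ite_eq, Finset.sum_ite_eq]
        simp
      rw [h1, ← hw e he]
      by_cases h2 : e ∈ C <;> simp [h2]
    · have h1 : e ∉ C := fun h2 => he (hC.1 e h2)
      have h2 : ((Finset.univ.filter (fun k : {k // k ∈ Φ} => w k = 1)).filter
          (fun k => e ∈ D k)) = ∅ := by
        apply Finset.filter_eq_empty_iff.2
        intro k _ hk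
        exact he ((hD k e).1 hk).1
      rw [h2]
      simp [h1]

end PLG
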