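import Pool.Agent.PLG.CLF

set_option autoImplicit false

namespace PLG

namespace CEL_

/-- reachable inside `K` -/
def R (K : Set (ℤ × ℤ)) (x y : ℤ × ℤ) : Prop := ∃ (n : ℕ) (p : ℕ → ℤ × ℤ),
  p 0 = x ∧ p n = y ∧ IsW p n ∧ ∀ i ≤ n, p i ∈ K

theorem R.refl {K : Set (ℤ × ℤ)} {x : ℤ × ℤ} (hx : x ∈ K) : R K x x :=
  ⟨0, fun _ => x, rfl, rfl, fun i hi => by omega, fun _ _ => hx⟩

theorem R.step {K : Set (ℤ × ℤ)} {x y z : ℤ × ℤ} (h : R K x y) (hyz : ad y z) (hz : z ∈ K) :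
    R K x z := by
  obtain ⟨n, p, h0, h1, h2, h3⟩ := h
  refine ⟨n + 1, fun i => if i ≤ n then p i else z, ?_, ?_, ?_, ?_⟩
  · simp only [Nat.zero_le, if_true]
    exact h0
  · have : ¬ (n + 1 ≤ n) := by omega
    simp only [this, if_false]
  · intro i hi
    by_cases h : i + 1 ≤ n
    · have h' : i ≤ n := by omega
      simp only [h, h', if_true]
      exact h2 i (by omega)
    · have h' : i = n := by omega
      have h'' : i ≤ n := by omega
      simp only [h, h'', if_true, if_false]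
      rw [h', h1]
      exact hyz
  · intro i hi
    by_cases h : i ≤ n
    · simp only [h, if_true]
      exact h3 i h
    · simp only [h, if_false]
      exact hz

/-- the closed unit square -/
def sqr (x : ℤ × ℤ) : Set (ℝ × ℝ) :=
  {z | (x.1 : ℝ) ≤ z.1 ∧ z.1 ≤ x.1 + 1 ∧ (x.2 : ℝ) ≤ z.2 ∧ z.2 ≤ x.2 + 1}

theorem isClosed_sqr (x : ℤ × ℤ) : IsClosed (sqr x) := by
  unfold sqr
  exact (isClosed_le continuous_const continuous_fst).inter
    ((isClosed_le continuous_fst continuous_const).inter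
    ((isClosed_le continuous_const continuous_snd).inter
    (isClosed_le continuous_snd continuous_const)))

theorem mem_cells {M : Set (ℝ × ℝ)} {x : ℤ × ℤ} : x ∈ cells M ↔ ∃ z ∈ M, z ∈ sqr x := Iff.rfl

end CEL_

open CEL_ in
theorem cel_proof : Stmt_CEL := by
  intro M hM hc a ha b hb
  have hfin : (cells M).Finite := clf_proof.1 M hM.isBounded
  show R (cells M) a b
  by_contra hab
  set A : Set (ℤ × ℤ) := {x | x ∈ cells M ∧ R (cells M) a x} with hA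
  set A' : Set (ℤ × ℤ) := {x | x ∈ cells M ∧ ¬ R (cells M) a x} with hA'
  have hAf : A.Finite := hfin.subset (fun x hx => hx.1)
  have hAf' : A'.Finite := hfin.subset (fun x hx => hx.1)
  have h1 : IsClosed (⋃ x ∈ A, sqr x) := hAf.isClosed_biUnion (fun x _ => isClosed_sqr x)
  have h2 : IsClosed (⋃ x ∈ A', sqr x) := hAf'.isClosed_biUnion (fun x _ => isClosed_sqr x)
  have h3 : M ⊆ (⋃ x ∈ A, sqr x) ∪ (⋃ x ∈ A', sqr x) := by
    intro z hz
    have h4 := mem_cells_floor hz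
    have h5 : z ∈ sqr (⌊z.1⌋, ⌊z.2⌋) :=
      ⟨Int.floor_le _, (Int.lt_floor_add_one _).le, Int.floor_le _, (Int.lt_floor_add_one _).le⟩
    by_cases h6 : R (cells M) a (⌊z.1⌋, ⌊z.2⌋)
    · exact Or.inl (Set.mem_biUnion (show (⌊z.1⌋, ⌊z.2⌋) ∈ A from ⟨h4, h6⟩) h5)
    · exact Or.inr (Set.mem_biUnion (show (⌊z.1⌋, ⌊z.2⌋) ∈ A' from ⟨h4, h6⟩) h5)
  obtain ⟨z, hz, hz1, hz2⟩ := isPreconnected_closed_iff.1 hc _ _ h1 h2 h3
    (by
      obtain ⟨z, hz, hza⟩ := mem_cells.1 ha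
      exact ⟨z, hz, Set.mem_biUnion (show a ∈ A from ⟨ha, R.refl ha⟩) hza⟩)
    (by
      obtain ⟨z, hz, hzb⟩ := mem_cells.1 hb
      exact ⟨z, hz, Set.mem_biUnion (show b ∈ A' from ⟨hb, hab⟩) hzb⟩)
  rw [Set.mem_iUnion₂] at hz1 hz2
  obtain ⟨x, hx, hzx⟩ := hz1
  obtain ⟨y, hy, hzy⟩ := hz2
  obtain ⟨x1, x2⟩ := x
  obtain ⟨y1, y2⟩ := y
  obtain ⟨a1, a2, a3, a4⟩ := hzx
  obtain ⟨b1, b2, b3, b4⟩ := hzy
  simp only at a1 a2 a3 a4 b1 b2 b3 b4
  have e1 : x1 ≤ y1 + 1 := by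
    have : (x1 : ℝ) ≤ ((y1 + 1 : ℤ) : ℝ) := by push_cast; linarith
    exact_mod_cast this
  have e2 : y1 ≤ x1 + 1 := by
    have : (y1 : ℝ) ≤ ((x1 + 1 : ℤ) : ℝ) := by push_cast; linarith
    exact_mod_cast this
  have e3 : x2 ≤ y2 + 1 := by
    have : (x2 : ℝ) ≤ ((y2 + 1 : ℤ) : ℝ) := by push_cast; linarith
    exact_mod_cast this
  have e4 : y2 ≤ x2 + 1 := by
    have : (y2 : ℝ) ≤ ((x2 + 1 : ℤ) : ℝ) := by push_cast; linarith
    exact_mod_cast this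
  have hm : ((x1, y2) : ℤ × ℤ) ∈ cells M := ⟨z, hz, a1, a2, b3, b4⟩
  have hRm : R (cells M) a (x1, y2) := by
    by_cases h : x2 = y2
    · rw [← h]
      exact hx.2
    · refine hx.2.step ?_ hm
      refine Or.inl ⟨rfl, ?_⟩
      show y2 = x2 + 1 ∨ x2 = y2 + 1
      omega
  have hRy : R (cells M) a (y1, y2) := by
    by_cases h : x1 = y1
    · rw [← h]
      exact hRm
    · refine hRm.step ?_ hy.1
      refine Or.inr ⟨rfl, ?_⟩
      show y1 = x1 + 1 ∨ x1 = y1 + 1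
      omega
  exact hy.2 hRy

end PLG
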