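import Pool.Agent.PLG.Api

set_option autoImplicit false

namespace PLG

theorem clf_proof : Stmt_CLF := by
  refine ⟨?_, ?_, ?_⟩
  · intro M hM
    obtain ⟨R, hR⟩ := hM.subset_closedBall (0 : ℝ × ℝ)
    have h1 : cells M ⊆ (Set.Icc (-⌈R⌉ - 1) (⌈R⌉ + 1)) ×ˢ (Set.Icc (-⌈R⌉ - 1) (⌈R⌉ + 1)) := by
      rintro ⟨i, j⟩ ⟨z, hz, h1, h2, h3, h4⟩
      have h5 := hR hz
      rw [Metric.mem_closedBall, Prod.dist_eq, max_le_iff, Real.dist_eq, Real.dist_eq] at h5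
      simp only [Prod.fst_zero, Prod.snd_zero, sub_zero] at h5
      rw [abs_le, abs_le] at h5
      have hc := Int.le_ceil R
      simp only at h1 h2 h3 h4
      refine ⟨⟨?_, ?_⟩, ⟨?_, ?_⟩⟩
      · have : ((-⌈R⌉ - 1 : ℤ) : ℝ) ≤ (i : ℝ) := by push_cast; linarith [h5.1.1]
        exact_mod_cast this
      · have : (i : ℝ) ≤ ((⌈R⌉ + 1 : ℤ) : ℝ) := by push_cast; linarith [h5.1.2]
        exact_mod_cast this
      · have : ((-⌈R⌉ - 1 : ℤ) : ℝ) ≤ (j : ℝ) := by push_cast; linarith [h5.2.1]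
        exact_mod_cast this
      · have : (j : ℝ) ≤ ((⌈R⌉ + 1 : ℤ) : ℝ) := by push_cast; linarith [h5.2.2]
        exact_mod_cast this
    exact ((Set.finite_Icc _ _).prod (Set.finite_Icc _ _)).subset h1
  · rintro M M' ⟨⟨i, j⟩, ⟨z, hz, h1, h2, h3, h4⟩, ⟨z', hz', h1', h2', h3', h4'⟩⟩
    refine ⟨z, hz, z', hz', ?_⟩
    rw [Prod.dist_eq, max_le_iff, Real.dist_eq, Real.dist_eq, abs_le, abs_le]
    simp only at h1 h2 h3 h4 h1' h2' h3' h4'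
    refine ⟨⟨by linarith, by linarith⟩, ⟨by linarith, by linarith⟩⟩
  · rintro M M' ⟨z, hz, hz'⟩
    exact ⟨_, mem_cells_floor hz, mem_cells_floor hz'⟩

end PLG
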