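import Pool.Agent.PLG.Api

set_option autoImplicit false

namespace PLG

theorem dcn_proof : Stmt_DCN := by
  intro X σ hs hb
  have h1 : ∑ x ∈ X, ∑ y ∈ nb x, σ x y = 0 := by
    apply Finset.sum_eq_zero
    intro x hx
    rw [← bd_eq_sum]
    exact hb x hx
  have h2 : ∀ x ∈ X, ∑ y ∈ nb x, σ x y = ∑ y ∈ (nb x).filter (fun y => y ∈ X), σ x y +
      ∑ y ∈ (nb x).filter (fun y => y ∉ X), σ x y := by
    intro x _
    exact (Finset.sum_filter_add_sum_filter_not _ _ _).symm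
  rw [Finset.sum_congr rfl h2, Finset.sum_add_distrib] at h1
  have h3 : ∑ x ∈ X, ∑ y ∈ (nb x).filter (fun y => y ∈ X), σ x y = 0 := by
    rw [Finset.sum_sigma']
    apply Finset.sum_involution (fun (a : Σ _ : ℤ × ℤ, ℤ × ℤ) _ => (⟨a.2, a.1⟩ : Σ _ : ℤ × ℤ, ℤ × ℤ))
    · rintro ⟨x, y⟩ _
      simp only
      rw [hs y x]
      exact z2_add_self _
    · rintro ⟨x, y⟩ ha _ heq
      rw [Finset.mem_sigma, Finset.mem_filter, mem_nb] at ha
      have h4 : y = x := congrArg Sigma.fst heq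
      exact ad_ne ha.2.1 h4.symm
    · rintro ⟨x, y⟩ ha
      rw [Finset.mem_sigma, Finset.mem_filter] at ha ⊢
      exact ⟨ha.2.2, mem_nb_comm.1 ha.2.1, ha.1⟩
    · rintro ⟨x, y⟩ _
      rfl
  rw [h3, zero_add] at h1
  exact h1

end PLG
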