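import Pool.Agent.PLG.Api

set_option autoImplicit false

namespace PLG

theorem dw1_proof : Stmt_DW1 := by
  classical
  intro V _ G B n p hm σ hs hb hk e he
  intro i
  induction i with
  | zero => intro _; rfl
  | succ i ih =>
    intro hi
    rw [← ih (by omega)]
    set x := p e (i + 1) with hx
    have hx1 : ad (p e i) x := hm.walk e he i (by omega)
    have hx2 : ad x (p e (i + 1 + 1)) := hm.walk e he (i + 1) hi
    have hne : p e i ≠ p e (i + 1 + 1) := by
      intro h
      have := hm.inj e he i (by omega) (i + 1 + 1) (by omega) h
      omega
    have h0 := hb x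
    rw [bd_eq_sum] at h0
    have hsub : ({p e i, p e (i + 1 + 1)} : Finset (ℤ × ℤ)) ⊆ nb x := by
      intro y hy
      rw [Finset.mem_insert, Finset.mem_singleton] at hy
      rcases hy with rfl | rfl
      · exact mem_nb.2 (ad_symm hx1)
      · exact mem_nb.2 hx2
    rw [← Finset.sum_subset hsub, Finset.sum_pair hne] at h0
    · have h1 := z2_eq_of_add h0
      rw [← h1]
      exact hs _ _
    · intro y hy hy'
      rw [Finset.mem_insert, Finset.mem_singleton, not_or] at hy'
      apply hk x y (mem_nb.1 hy)
      rintro (⟨v, hv1, -⟩ | ⟨e', he', j, hj, h⟩)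
      · exact hm.int e he (i + 1) (by omega) (by omega) v hv1
      · have hee : e = e' := by
          by_contra hne'
          rcases h with ⟨h, -⟩ | ⟨-, h⟩
          · exact hm.pdis e he e' he' hne' (i + 1) (by omega) j (by omega) h.symm
          · exact hm.pdis e he e' he' hne' (i + 1) (by omega) (j + 1) (by omega) h.symm
        subst hee
        rcases h with ⟨h, h'⟩ | ⟨h', h⟩
        · have := hm.inj e he j (by omega) (i + 1) (by omega) h
          subst this
          exact hy'.2 h'.symm
        · have := hm.inj e he (j + 1) (by omega) (i + 1) (by omega) h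
          have hji : j = i := by omega
          subst hji
          exact hy'.1 h'.symm

end PLG
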