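import Pool.Agent.PLG.Api

/-!
# Squad PLG, module DW2: an even chain of the grid, zero off the kept pairs, gives an even chain
of `G`
-/

set_option autoImplicit false

namespace PLG

namespace DW2_

/-- the kept pairs which leave the blob `B v` -/
theorem kept_leave {V : Type} {G : SimpleGraph V} {B : V → Set (ℤ × ℤ)} {n : Sym2 V → ℕ}
    {p : Sym2 V → ℕ → ℤ × ℤ} (M : Mdl G B n p) {v : V} {x y : ℤ × ℤ} (hx : x ∈ B v)
    (hy : y ∉ B v) (hk : Kept G B n p x y) :
    ∃ e ∈ G.edgeSet, (hd e = v ∧ x = p e 0 ∧ y = p e 1) ∨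
      (tl e = v ∧ x = p e (n e) ∧ y = p e (n e - 1)) := by
  rcases hk with ⟨w, h1, h2⟩ | ⟨e, he, i, hi, h⟩
  · exfalso
    by_cases hw : w = v
    · subst hw
      exact hy h2
    · exact Set.disjoint_left.1 (M.dis w v hw) h1 hx
  · refine ⟨e, he, ?_⟩
    rcases h with ⟨h1, h2⟩ | ⟨h1, h2⟩
    · left
      have hi0 : i = 0 := by
        by_contra hne
        exact M.int e he i (Nat.pos_of_ne_zero hne) hi v (h1 ▸ hx)
      subst hi0
      refine ⟨?_, h1.symm, h2.symm⟩
      by_contra hw
      exact Set.disjoint_left.1 (M.dis (hd e) v hw) (M.st e he) (h1 ▸ hx)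
    · right
      have hi1 : i + 1 = n e := by
        by_contra hne
        exact M.int e he (i + 1) (Nat.succ_pos i) (by omega) v (h2 ▸ hx)
      refine ⟨?_, ?_, ?_⟩
      · by_contra hw
        refine Set.disjoint_left.1 (M.dis (tl e) v hw) (M.en e he) ?_
        rw [← hi1, h2]
        exact hx
      · rw [← hi1]
        exact h2.symm
      · rw [← hi1]
        exact h1.symm

theorem first_out {V : Type} {G : SimpleGraph V} {B : V → Set (ℤ × ℤ)} {n : Sym2 V → ℕ}
    {p : Sym2 V → ℕ → ℤ × ℤ} (M : Mdl G B n p) {e : Sym2 V} (he : e ∈ G.edgeSet) :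
    p e 1 ∉ B (hd e) := by
  intro h
  rcases Nat.lt_or_ge 1 (n e) with h1 | h1
  · exact M.int e he 1 one_pos h1 _ h
  · have h2 : n e = 1 := le_antisymm h1 (M.pos e he)
    have h3 := M.en e he
    rw [h2] at h3
    exact Set.disjoint_left.1 (M.dis _ _ (hd_ne_tl he)) h h3

theorem last_out {V : Type} {G : SimpleGraph V} {B : V → Set (ℤ × ℤ)} {n : Sym2 V → ℕ}
    {p : Sym2 V → ℕ → ℤ × ℤ} (M : Mdl G B n p) {e : Sym2 V} (he : e ∈ G.edgeSet) :
    p e (n e - 1) ∉ B (tl e) := by
  intro h
  have hp := M.pos e he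
  rcases Nat.lt_or_ge 1 (n e) with h1 | h1
  · exact M.int e he (n e - 1) (by omega) (by omega) _ h
  · have h2 : n e - 1 = 0 := by omega
    rw [h2] at h
    exact Set.disjoint_left.1 (M.dis _ _ (hd_ne_tl he)) (M.st e he) h

end DW2_

open DW2_ in
theorem dw2_proof (h1 : Stmt_DW1) (h2 : Stmt_DCN) (h3 : Stmt_HTL) : Stmt_DW2 := by
  intro V _ G B n p M σ hs hb hk s hs0 hs1 v
  classical
  set X := (M.fin v).toFinset with hX
  have hXm : ∀ x, x ∈ X ↔ x ∈ B v := fun x => Set.Finite.mem_toFinset _
  have key := h2 X σ hs (fun x _ => hb x)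
  set t : ℤ × ℤ → Finset (ℤ × ℤ) := fun x => (nb x).filter (fun y => y ∉ X) with ht
  have key' : ∑ x ∈ X, ∑ y ∈ t x, σ x y = 0 := key
  rw [Finset.sum_sigma'] at key'
  set T := X.sigma t with hT
  have hTm : ∀ x y, (⟨x, y⟩ : Σ _ : ℤ × ℤ, ℤ × ℤ) ∈ T ↔ x ∈ B v ∧ ad x y ∧ y ∉ B v := by
    intro x y
    rw [hT, Finset.mem_sigma, ht]
    simp only [Finset.mem_filter, mem_nb, hXm]
  have hpt : ∀ q ∈ T, σ q.1 q.2 = ∑ e : Sym2 V, s e *
      ((if hd e = v then (if q = ⟨p e 0, p e 1⟩ then (1 : ZMod 2) else 0) else 0) +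
       (if tl e = v then (if q = ⟨p e (n e), p e (n e - 1)⟩ then (1 : ZMod 2) else 0) else 0)) := by
    rintro ⟨x, y⟩ hq
    obtain ⟨hx, had, hy⟩ := (hTm x y).1 hq
    by_cases hK : Kept G B n p x y
    · obtain ⟨e, he, hor⟩ := kept_leave M hx hy hK
      have hpos := M.pos e he
      rw [Finset.sum_eq_single e]
      · rcases hor with ⟨hv, hx0, hy0⟩ | ⟨hv, hx0, hy0⟩
        · have hne : tl e ≠ v := by
            rw [← hv]
            exact (hd_ne_tl he).symm
          rw [if_pos hv, if_pos (by rw [hx0, hy0]), if_neg hne, hs1 e he]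
          simp only [hx0, hy0]
          ring
        · have hne : hd e ≠ v := by
            rw [← hv]
            exact hd_ne_tl he
          rw [if_neg hne, if_pos hv, if_pos (by rw [hx0, hy0]), hs1 e he]
          have h4 := h1 V G B n p M σ hs hb hk e he (n e - 1) (by omega)
          rw [Nat.sub_add_cancel hpos] at h4
          simp only [hx0, hy0]
          rw [hs, h4]
          ring
      · intro e' _ hne
        by_cases he' : e' ∈ G.edgeSet
        · have hxe : ∃ i ≤ n e, x = p e i := by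
            rcases hor with ⟨_, hx0, _⟩ | ⟨_, hx0, _⟩
            · exact ⟨0, Nat.zero_le _, hx0⟩
            · exact ⟨n e, le_rfl, hx0⟩
          obtain ⟨i, hi, hxi⟩ := hxe
          have c1 : ¬ ((⟨x, y⟩ : Σ _ : ℤ × ℤ, ℤ × ℤ) = ⟨p e' 0, p e' 1⟩) := by
            intro h
            have h5 : x = p e' 0 := congrArg Sigma.fst h
            exact M.pdis e he e' he' hne.symm i hi 0 (Nat.zero_le _) (hxi.symm.trans h5)
          have c2 : ¬ ((⟨x, y⟩ : Σ _ : ℤ × ℤ, ℤ × ℤ) = ⟨p e' (n e'), p e' (n e' - 1)⟩) := by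
            intro h
            have h5 : x = p e' (n e') := congrArg Sigma.fst h
            exact M.pdis e he e' he' hne.symm i hi (n e') le_rfl (hxi.symm.trans h5)
          rw [if_neg c1, if_neg c2]
          simp
        · rw [hs0 e' he', zero_mul]
      · intro h
        exact absurd (Finset.mem_univ e) h
    · rw [hk x y had hK]
      symm
      apply Finset.sum_eq_zero
      intro e _
      by_cases he : e ∈ G.edgeSet
      · have hpos := M.pos e he
        have c1 : ¬ ((⟨x, y⟩ : Σ _ : ℤ × ℤ, ℤ × ℤ) = ⟨p e 0, p e 1⟩) := by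
          intro h
          have h5 : x = p e 0 := congrArg Sigma.fst h
          have h6 : y = p e 1 := by
            have := congrArg Sigma.snd h
            exact this
          exact hK (Or.inr ⟨e, he, 0, hpos, Or.inl ⟨h5.symm, h6.symm⟩⟩)
        have c2 : ¬ ((⟨x, y⟩ : Σ _ : ℤ × ℤ, ℤ × ℤ) = ⟨p e (n e), p e (n e - 1)⟩) := by
          intro h
          have h5 : x = p e (n e) := congrArg Sigma.fst h
          have h6 : y = p e (n e - 1) := by
            have := congrArg Sigma.snd h
            exact this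
          refine hK (Or.inr ⟨e, he, n e - 1, by omega, Or.inr ⟨h6.symm, ?_⟩⟩)
          rw [Nat.sub_add_cancel hpos]
          exact h5.symm
        rw [if_neg c1, if_neg c2]
        simp
      · rw [hs0 e he, zero_mul]
  rw [Finset.sum_congr rfl hpt, Finset.sum_comm] at key'
  have hin : ∀ e : Sym2 V, ∑ q ∈ T, s e *
      ((if hd e = v then (if q = ⟨p e 0, p e 1⟩ then (1 : ZMod 2) else 0) else 0) +
       (if tl e = v then (if q = ⟨p e (n e), p e (n e - 1)⟩ then (1 : ZMod 2) else 0) else 0)) =
      s e * ((if hd e = v then 1 else 0) + (if tl e = v then 1 else 0)) := by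
    intro e
    rw [← Finset.mul_sum, Finset.sum_add_distrib]
    by_cases he : e ∈ G.edgeSet
    · have hpos := M.pos e he
      congr 2
      · by_cases hv : hd e = v
        · simp only [if_pos hv]
          rw [Finset.sum_ite_eq', if_pos]
          rw [hTm]
          refine ⟨hv ▸ M.st e he, M.walk e he 0 hpos, hv ▸ first_out M he⟩
        · simp only [if_neg hv, Finset.sum_const_zero]
      · by_cases hv : tl e = v
        · simp only [if_pos hv]
          rw [Finset.sum_ite_eq', if_pos]
          rw [hTm]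
          refine ⟨hv ▸ M.en e he, ?_, hv ▸ last_out M he⟩
          have h4 := M.walk e he (n e - 1) (by omega)
          rw [Nat.sub_add_cancel hpos] at h4
          exact ad_symm h4
        · simp only [if_neg hv, Finset.sum_const_zero]
    · rw [hs0 e he, zero_mul, zero_mul]
  rw [Finset.sum_congr rfl (fun e _ => hin e)] at key'
  have h4 := h3 V G s (fun w => if w = v then 1 else 0) hs0
  rw [key'] at h4
  simp only [ite_mul, one_mul, zero_mul, Finset.sum_ite_eq', Finset.mem_univ, if_true] at h4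
  exact h4.symm

end PLG
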