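import Mathlib

/-!
# Squad PLG: a topological drawing of a graph gives an abstract dual over `F₂`

Definitions.  The unit squares of the plane are indexed by `ℤ × ℤ`: the square `x` is
`[x.1, x.1 + 1] × [x.2, x.2 + 1]`.  The corners (grid points) are indexed by `ℤ × ℤ` as well.
-/

set_option autoImplicit false

namespace PLG

/-- the drawing hypothesis of `S11835`, verbatim -/
def Drawn {V : Type} (G : SimpleGraph V) : Prop :=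
  ∃ p : V → ℝ × ℝ, Function.Injective p ∧
      ∃ γ : V → V → ℝ → ℝ × ℝ,
        (∀ u v, G.Adj u v →
          ContinuousOn (γ u v) (Set.Icc 0 1) ∧ Set.InjOn (γ u v) (Set.Icc 0 1) ∧
          γ u v 0 = p u ∧ γ u v 1 = p v ∧
          ∀ t ∈ Set.Ioo (0:ℝ) 1, ∀ w, γ u v t ≠ p w) ∧
        (∀ u v x y, G.Adj u v → G.Adj x y → s(u, v) ≠ s(x, y) →
          ∀ t ∈ Set.Ioo (0:ℝ) 1, ∀ t' ∈ Set.Ioo (0:ℝ) 1, γ u v t ≠ γ x y t')

/-- `G` has an abstract dual over `F₂`: the cycle space of `G` is the cut space of the dual graph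
with vertices `F` and edges `A e`, `B e` -/
def HasDual {V : Type} [Fintype V] (G : SimpleGraph V) : Prop :=
  ∃ (F : Type) (A B : Sym2 V → F), ∀ s : Sym2 V → ZMod 2, (∀ e, e ∉ G.edgeSet → s e = 0) →
    ((∀ v, ∑ u, s s(v, u) = 0) ↔ ∃ w : F → ZMod 2, ∀ e ∈ G.edgeSet, s e = w (A e) + w (B e))

/-! ## The grid -/

/-- side adjacency of unit squares -/
def ad (x y : ℤ × ℤ) : Prop :=
  (x.1 = y.1 ∧ (y.2 = x.2 + 1 ∨ x.2 = y.2 + 1)) ∨ (x.2 = y.2 ∧ (y.1 = x.1 + 1 ∨ x.1 = y.1 + 1))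

/-- first end (a corner) of the common side of the adjacent squares `x`, `y` -/
def c1 (x y : ℤ × ℤ) : ℤ × ℤ := (max x.1 y.1, max x.2 y.2)

/-- second end (a corner) of the common side of the adjacent squares `x`, `y` -/
def c2 (x y : ℤ × ℤ) : ℤ × ℤ :=
  if x.1 = y.1 then (max x.1 y.1 + 1, max x.2 y.2) else (max x.1 y.1, max x.2 y.2 + 1)

/-- the coboundary of a function on the corners -/
def cb (w : ℤ × ℤ → ZMod 2) (x y : ℤ × ℤ) : ZMod 2 := w (c1 x y) + w (c2 x y)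

/-- the boundary of a 1-chain of the grid of squares -/
def bd (σ : ℤ × ℤ → ℤ × ℤ → ZMod 2) (x : ℤ × ℤ) : ZMod 2 :=
  σ x (x.1 + 1, x.2) + σ x (x.1 - 1, x.2) + σ x (x.1, x.2 + 1) + σ x (x.1, x.2 - 1)

/-- 1-chains: symmetric, finitely supported -/
structure Chn (σ : ℤ × ℤ → ℤ × ℤ → ZMod 2) : Prop where
  symm : ∀ x y, σ x y = σ y x
  fin : ∃ N : ℤ, ∀ x y, σ x y ≠ 0 → |x.1| ≤ N ∧ |x.2| ≤ N

/-- the first `n` steps of `p` are a walk in the grid of squares -/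
def IsW (p : ℕ → ℤ × ℤ) (n : ℕ) : Prop := ∀ i < n, ad (p i) (p (i + 1))

/-- the chain of a walk -/
def ch (p : ℕ → ℤ × ℤ) (n : ℕ) (x y : ℤ × ℤ) : ZMod 2 :=
  ∑ i ∈ Finset.range n, if (p i = x ∧ p (i + 1) = y) ∨ (p i = y ∧ p (i + 1) = x) then 1 else 0

/-- connected set of squares -/
def Con (S : Set (ℤ × ℤ)) : Prop := ∀ x ∈ S, ∀ y ∈ S, ∃ (n : ℕ) (p : ℕ → ℤ × ℤ),
  p 0 = x ∧ p n = y ∧ IsW p n ∧ ∀ i ≤ n, p i ∈ S

/-- the squares which meet `M` -/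
def cells (M : Set (ℝ × ℝ)) : Set (ℤ × ℤ) :=
  {x | ∃ z ∈ M, (x.1 : ℝ) ≤ z.1 ∧ z.1 ≤ x.1 + 1 ∧ (x.2 : ℝ) ≤ z.2 ∧ z.2 ≤ x.2 + 1}

/-! ## Grid models of a graph -/

/-- one end of `e` -/
noncomputable def hd {V : Type} (e : Sym2 V) : V := (Quot.out e).1

/-- the other end of `e` -/
noncomputable def tl {V : Type} (e : Sym2 V) : V := (Quot.out e).2

/-- blobs `B v` for the vertices, blobs `S e` for the edges -/
structure Blob {V : Type} (G : SimpleGraph V) (B : V → Set (ℤ × ℤ)) (S : Sym2 V → Set (ℤ × ℤ)) :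
    Prop where
  fin : ∀ v, (B v).Finite
  ne : ∀ v, (B v).Nonempty
  con : ∀ v, Con (B v)
  dis : ∀ u v, u ≠ v → Disjoint (B u) (B v)
  scon : ∀ e ∈ G.edgeSet, Con (S e)
  shd : ∀ e ∈ G.edgeSet, (S e ∩ B (hd e)).Nonempty
  stl : ∀ e ∈ G.edgeSet, (S e ∩ B (tl e)).Nonempty
  sdis : ∀ e ∈ G.edgeSet, ∀ w, w ∉ e → Disjoint (S e) (B w)
  ssdis : ∀ e ∈ G.edgeSet, ∀ e' ∈ G.edgeSet, e ≠ e' → Disjoint (S e) (S e')

/-- blobs `B v` for the vertices, paths `p e 0, …, p e (n e)` for the edges -/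
structure Mdl {V : Type} (G : SimpleGraph V) (B : V → Set (ℤ × ℤ)) (n : Sym2 V → ℕ)
    (p : Sym2 V → ℕ → ℤ × ℤ) : Prop where
  fin : ∀ v, (B v).Finite
  ne : ∀ v, (B v).Nonempty
  con : ∀ v, Con (B v)
  dis : ∀ u v, u ≠ v → Disjoint (B u) (B v)
  pos : ∀ e ∈ G.edgeSet, 1 ≤ n e
  walk : ∀ e ∈ G.edgeSet, IsW (p e) (n e)
  inj : ∀ e ∈ G.edgeSet, ∀ i ≤ n e, ∀ j ≤ n e, p e i = p e j → i = j
  st : ∀ e ∈ G.edgeSet, p e 0 ∈ B (hd e)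
  en : ∀ e ∈ G.edgeSet, p e (n e) ∈ B (tl e)
  int : ∀ e ∈ G.edgeSet, ∀ i, 0 < i → i < n e → ∀ w, p e i ∉ B w
  pdis : ∀ e ∈ G.edgeSet, ∀ e' ∈ G.edgeSet, e ≠ e' → ∀ i ≤ n e, ∀ j ≤ n e', p e i ≠ p e' j

/-- the pairs of adjacent squares which are kept: inside a blob or a step of a path -/
def Kept {V : Type} (G : SimpleGraph V) (B : V → Set (ℤ × ℤ)) (n : Sym2 V → ℕ)
    (p : Sym2 V → ℕ → ℤ × ℤ) (x y : ℤ × ℤ) : Prop :=
  (∃ v, x ∈ B v ∧ y ∈ B v) ∨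
    ∃ e ∈ G.edgeSet, ∃ i < n e, (p e i = x ∧ p e (i + 1) = y) ∨ (p e i = y ∧ p e (i + 1) = x)

end PLG
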