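import Pool.Agent.PLG.Api

/-!
# PLG, module GDA: coboundaries are even
-/

set_option autoImplicit false

namespace PLG

namespace GDA_

theorem c1_comm (x y : ℤ × ℤ) : c1 x y = c1 y x := by
  unfold c1
  rw [max_comm, max_comm x.2]

theorem c2_comm (x y : ℤ × ℤ) : c2 x y = c2 y x := by
  unfold c2
  rw [max_comm, max_comm x.2]
  by_cases h : x.1 = y.1
  · rw [if_pos h, if_pos h.symm]
  · rw [if_neg h, if_neg (fun h' => h h'.symm)]

end GDA_

open GDA_ in
theorem gda_proof : Stmt_GDA := by
  intro w
  refine ⟨fun x y => ?_, fun x => ?_⟩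
  · unfold cb
    rw [c1_comm, c2_comm]
  · obtain ⟨a, b⟩ := x
    have r1 : c1 (a, b) (a + 1, b) = (a + 1, b) := by
      unfold c1
      ext <;> simp
    have r2 : c2 (a, b) (a + 1, b) = (a + 1, b + 1) := by
      unfold c2
      rw [if_neg (by simp)]
      ext <;> simp
    have l1 : c1 (a, b) (a - 1, b) = (a, b) := by
      unfold c1
      ext <;> simp
    have l2 : c2 (a, b) (a - 1, b) = (a, b + 1) := by
      unfold c2
      rw [if_neg (by show ¬ a = a - 1; omega)]
      ext <;> simp
    have t1 : c1 (a, b) (a, b + 1) = (a, b + 1) := by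
      unfold c1
      ext <;> simp
    have t2 : c2 (a, b) (a, b + 1) = (a + 1, b + 1) := by
      unfold c2
      rw [if_pos rfl]
      ext <;> simp
    have b1 : c1 (a, b) (a, b - 1) = (a, b) := by
      unfold c1
      ext <;> simp
    have b2 : c2 (a, b) (a, b - 1) = (a + 1, b) := by
      unfold c2
      rw [if_pos rfl]
      ext <;> simp
    unfold bd cb
    simp only [r1, r2, l1, l2, t1, t2, b1, b2]
    have h2 : ∀ z : ZMod 2, z + z = 0 := by decide
    have e : w (a + 1, b) + w (a + 1, b + 1) + (w (a, b) + w (a, b + 1)) +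
        (w (a, b + 1) + w (a + 1, b + 1)) + (w (a, b) + w (a + 1, b)) =
        (w (a + 1, b) + w (a + 1, b)) + (w (a + 1, b + 1) + w (a + 1, b + 1)) +
        (w (a, b) + w (a, b)) + (w (a, b + 1) + w (a, b + 1)) := by ring
    rw [e]
    simp only [h2, add_zero]

end PLG
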