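import Pool.Agent.PLG.Api

/-!
# Module GDB of squad PLG: even chains are coboundaries
-/

set_option autoImplicit false

namespace PLG

namespace GDB_

/-- the potential -/
def W (σ : ℤ × ℤ → ℤ × ℤ → ZMod 2) (N : ℤ) (c : ℤ × ℤ) : ZMod 2 :=
  ∑ k ∈ Finset.range (N + 1 - c.2).toNat, σ (c.1 - 1, c.2 + k) (c.1, c.2 + k)

theorem zero_of_fst {σ : ℤ × ℤ → ℤ × ℤ → ZMod 2} {N : ℤ}
    (h : ∀ x y, σ x y ≠ 0 → |x.1| ≤ N ∧ |x.2| ≤ N) {x y : ℤ × ℤ} (hx : N < x.2) : σ x y = 0 := by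
  by_contra hc
  have h1 := (h x y hc).2
  have h2 := le_abs_self x.2
  omega

theorem step {σ : ℤ × ℤ → ℤ × ℤ → ZMod 2} {N : ℤ}
    (h : ∀ x y, σ x y ≠ 0 → |x.1| ≤ N ∧ |x.2| ≤ N) (i j : ℤ) :
    W σ N (i, j) = σ (i - 1, j) (i, j) + W σ N (i, j + 1) := by
  unfold W
  simp only
  by_cases hj : j ≤ N
  · have e : (N + 1 - j).toNat = (N + 1 - (j + 1)).toNat + 1 := by omega
    rw [e, Finset.sum_range_succ']
    have e2 : ∀ k : ℕ, j + ((k + 1 : ℕ) : ℤ) = j + 1 + (k : ℤ) := fun k => by push_cast; ring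
    simp only [e2, Nat.cast_zero, add_zero]
    rw [add_comm]
  · have e1 : (N + 1 - j).toNat = 0 := by omega
    have e2 : (N + 1 - (j + 1)).toNat = 0 := by omega
    rw [e1, e2, zero_of_fst h (by simpa using lt_of_not_ge hj)]
    simp

theorem top {σ : ℤ × ℤ → ℤ × ℤ → ZMod 2} {N : ℤ} (i j : ℤ) (hj : N < j) : W σ N (i, j) = 0 := by
  unfold W
  have e1 : (N + 1 - j).toNat = 0 := by omega
  simp [e1]

theorem vert {σ : ℤ × ℤ → ℤ × ℤ → ZMod 2} {N : ℤ} (hs : ∀ x y, σ x y = σ y x)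
    (h : ∀ x y, σ x y ≠ 0 → |x.1| ≤ N ∧ |x.2| ≤ N) (hb : ∀ x, bd σ x = 0) (i : ℤ) (k : ℕ) :
    W σ N (i, N - k + 1) + W σ N (i + 1, N - k + 1) = σ (i, N - k) (i, N - k + 1) := by
  induction k with
  | zero =>
    rw [top _ _ (by push_cast; omega), top _ _ (by push_cast; omega), hs, zero_of_fst h (by simp)]
    simp
  | succ k ih =>
    have e : N - ((k + 1 : ℕ) : ℤ) + 1 = N - (k : ℤ) := by push_cast; ring
    have e' : N - ((k + 1 : ℕ) : ℤ) = N - (k : ℤ) - 1 := by push_cast; ring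
    rw [e, e', step h i, step h (i + 1)]
    have hb1 := hb (i, N - (k : ℤ))
    unfold bd at hb1
    simp only at hb1
    have e3 : (i + 1 - 1 : ℤ) = i := by ring
    rw [e3]
    rw [hs (i - 1, N - (k : ℤ)) (i, N - (k : ℤ)), hs (i, N - (k : ℤ) - 1) (i, N - (k : ℤ))]
    generalize σ (i, N - (k : ℤ)) (i - 1, N - (k : ℤ)) = a at *
    generalize σ (i, N - (k : ℤ)) (i + 1, N - (k : ℤ)) = b at *
    generalize σ (i, N - (k : ℤ)) (i, N - (k : ℤ) - 1) = c at *
    generalize σ (i, N - (k : ℤ)) (i, N - (k : ℤ) + 1) = d at *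
    generalize W σ N (i, N - (k : ℤ) + 1) = u at *
    generalize W σ N (i + 1, N - (k : ℤ) + 1) = v at *
    revert a b c d u v
    decide

theorem vert' {σ : ℤ × ℤ → ℤ × ℤ → ZMod 2} {N : ℤ} (hs : ∀ x y, σ x y = σ y x)
    (h : ∀ x y, σ x y ≠ 0 → |x.1| ≤ N ∧ |x.2| ≤ N) (hb : ∀ x, bd σ x = 0) (i j : ℤ) :
    W σ N (i, j + 1) + W σ N (i + 1, j + 1) = σ (i, j) (i, j + 1) := by
  by_cases hj : j ≤ N
  · have e : j = N - ((N - j).toNat : ℤ) := by omega
    rw [e]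
    exact vert hs h hb i _
  · rw [top _ _ (by omega), top _ _ (by omega), zero_of_fst h (by simpa using lt_of_not_ge hj)]
    simp

end GDB_

open GDB_ in
theorem gdb_proof : Stmt_GDB := by
  intro σ hσ hb
  obtain ⟨N, h⟩ := hσ.fin
  have hs := hσ.symm
  refine ⟨W σ N, ?_⟩
  rintro ⟨a, b⟩ ⟨c, d⟩ hxy
  unfold ad at hxy
  simp only at hxy
  rcases hxy with ⟨h1, h2 | h2⟩ | ⟨h1, h2 | h2⟩
  · subst h1 h2
    have e := vert' hs h hb a b
    unfold cb c1 c2
    simp only [if_true, max_self]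
    rw [max_eq_right (by omega : b ≤ b + 1)]
    exact e.symm
  · subst h1 h2
    have e := vert' hs h hb a d
    unfold cb c1 c2
    simp only [if_true, max_self]
    rw [max_eq_left (by omega : d ≤ d + 1), hs]
    exact e.symm
  · subst h1 h2
    have e := step h (a + 1) b
    unfold cb c1 c2
    simp only [max_self]
    rw [if_neg (by omega), max_eq_right (by omega : a ≤ a + 1), e]
    have e3 : (a + 1 - 1 : ℤ) = a := by ring
    rw [e3, add_assoc, z2_add_self, add_zero]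
  · subst h1 h2
    have e := step h (c + 1) b
    unfold cb c1 c2
    simp only [max_self]
    rw [if_neg (by omega), max_eq_left (by omega : c ≤ c + 1), e]
    have e3 : (c + 1 - 1 : ℤ) = c := by ring
    rw [e3, add_assoc, z2_add_self, add_zero, hs]

end PLG
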