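import Pool.Agent.PLG.Api

/-!
# Squad PLG: module HTL (sums over the edges and sums over the vertices)
-/

set_option autoImplicit false

namespace PLG

namespace HTL_

theorem fiber {V : Type} [Fintype V] [DecidableEq V] (e : Sym2 V) :
    (Finset.univ : Finset (V × V)).filter (fun q => s(q.1, q.2) = e)
      = {(hd e, tl e), (tl e, hd e)} := by
  ext q
  obtain ⟨a, b⟩ := q
  simp only [Finset.mem_filter, Finset.mem_univ, true_and, Finset.mem_insert,
    Finset.mem_singleton, Prod.mk.injEq]
  have h := mk_hd_tl e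
  constructor
  · intro hab
    have h2 : s(a, b) = s(hd e, tl e) := hab.trans h.symm
    exact Sym2.eq_iff.1 h2
  · intro hab
    exact (Sym2.eq_iff.2 hab).trans h

end HTL_

theorem htl_proof : Stmt_HTL := by
  intro V _ _ G s f hs
  have h1 : ∑ v, f v * ∑ u, s s(v, u) = ∑ q : V × V, f q.1 * s s(q.1, q.2) := by
    rw [Fintype.sum_prod_type]
    refine Finset.sum_congr rfl fun v _ => ?_
    rw [Finset.mul_sum]
  rw [h1, ← Finset.sum_fiberwise (Finset.univ : Finset (V × V)) (fun q => s(q.1, q.2))]
  refine Finset.sum_congr rfl fun e _ => ?_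
  by_cases he : e ∈ G.edgeSet
  · rw [HTL_.fiber e, Finset.sum_pair]
    · have h2 : s(tl e, hd e) = e := by
        rw [Sym2.eq_swap]
        exact mk_hd_tl e
      simp only [mk_hd_tl, h2]
      ring
    · intro h
      exact hd_ne_tl he (Prod.mk.inj h).1
  · rw [hs e he, zero_mul]
    symm
    refine Finset.sum_eq_zero fun q hq => ?_
    rw [(Finset.mem_filter.1 hq).2, hs e he, mul_zero]

end PLG
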