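import Pool.Agent.PLG.Api

/-!
# Squad PLG: module LFT (an even chain of the graph lifts to the grid)
-/

set_option autoImplicit false

namespace PLG

namespace LFT_

theorem ch_symm (p : ℕ → ℤ × ℤ) (n : ℕ) (x y : ℤ × ℤ) : ch p n x y = ch p n y x := by
  unfold ch
  refine Finset.sum_congr rfl fun i _ => ?_
  by_cases h : (p i = x ∧ p (i + 1) = y) ∨ (p i = y ∧ p (i + 1) = x)
  · rw [if_pos h, if_pos h.symm]
  · rw [if_neg h, if_neg fun h' => h h'.symm]

theorem ch_ne (p : ℕ → ℤ × ℤ) (n : ℕ) (x y : ℤ × ℤ) (h : ch p n x y ≠ 0) :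
    ∃ i < n, (p i = x ∧ p (i + 1) = y) ∨ (p i = y ∧ p (i + 1) = x) := by
  unfold ch at h
  obtain ⟨i, hi, h'⟩ := Finset.exists_ne_zero_of_sum_ne_zero h
  refine ⟨i, Finset.mem_range.1 hi, ?_⟩
  by_contra hcon
  exact h' (if_neg hcon)

end LFT_

open LFT_ in
theorem lft_proof (hW : Stmt_WCH) (hH : Stmt_HTL) : Stmt_LFT := by
  classical
  intro V _ G B n p hM s hs heven
  have hse : ∀ e, s e ≠ 0 → e ∈ G.edgeSet := by
    intro e he
    by_contra hcon
    exact he (hs e hcon)
  choose c hc using hM.ne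
  have h1 : ∀ e ∈ G.edgeSet, ∃ (m : ℕ) (q : ℕ → ℤ × ℤ),
      q 0 = c (hd e) ∧ q m = p e 0 ∧ IsW q m ∧ ∀ i ≤ m, q i ∈ B (hd e) :=
    fun e he => hM.con (hd e) _ (hc (hd e)) _ (hM.st e he)
  have h2 : ∀ e ∈ G.edgeSet, ∃ (m : ℕ) (q : ℕ → ℤ × ℤ),
      q 0 = p e (n e) ∧ q m = c (tl e) ∧ IsW q m ∧ ∀ i ≤ m, q i ∈ B (tl e) :=
    fun e he => hM.con (tl e) _ (hM.en e he) _ (hc (tl e))
  choose! m1 q1 h10 h1m h1w h1B using h1
  choose! m2 q2 h20 h2m h2w h2B using h2
  set T : Sym2 V → ℤ × ℤ → ℤ × ℤ → ZMod 2 := fun e x y =>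
    ch (q1 e) (m1 e) x y + ch (p e) (n e) x y + ch (q2 e) (m2 e) x y with hT
  set σ : ℤ × ℤ → ℤ × ℤ → ZMod 2 := fun x y => ∑ e : Sym2 V, s e * T e x y with hσ
  have hTne : ∀ e x y, T e x y ≠ 0 → ch (q1 e) (m1 e) x y ≠ 0 ∨ ch (p e) (n e) x y ≠ 0 ∨
      ch (q2 e) (m2 e) x y ≠ 0 := by
    intro e x y h
    by_contra hcon
    push Not at hcon
    apply h
    simp only [hT, hcon.1, hcon.2.1, hcon.2.2, add_zero]
  have hσne : ∀ x y, σ x y ≠ 0 → ∃ e ∈ G.edgeSet, T e x y ≠ 0 := by
    intro x y h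
    obtain ⟨e, _, h'⟩ := Finset.exists_ne_zero_of_sum_ne_zero h
    exact ⟨e, hse e (left_ne_zero_of_mul h'), right_ne_zero_of_mul h'⟩
  -- finite supports
  have hfin : ∀ e ∈ G.edgeSet, ∃ N : ℤ, 0 ≤ N ∧ ∀ x y, T e x y ≠ 0 → |x.1| ≤ N ∧ |x.2| ≤ N := by
    intro e he
    obtain ⟨N1, hN1⟩ := (hW (q1 e) (m1 e) (h1w e he)).1.fin
    obtain ⟨N2, hN2⟩ := (hW (p e) (n e) (hM.walk e he)).1.fin
    obtain ⟨N3, hN3⟩ := (hW (q2 e) (m2 e) (h2w e he)).1.fin
    refine ⟨|N1| + |N2| + |N3|, by positivity, ?_⟩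
    intro x y h
    have a1 := le_abs_self N1
    have a2 := le_abs_self N2
    have a3 := le_abs_self N3
    have b1 := abs_nonneg N1
    have b2 := abs_nonneg N2
    have b3 := abs_nonneg N3
    rcases hTne e x y h with h | h | h
    · have := hN1 x y h
      constructor <;> linarith [this.1, this.2]
    · have := hN2 x y h
      constructor <;> linarith [this.1, this.2]
    · have := hN3 x y h
      constructor <;> linarith [this.1, this.2]
  choose! N hN0 hN using hfin
  refine ⟨σ, ⟨?_, ?_⟩, ?_, ?_, ?_⟩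
  · intro x y
    simp only [hσ, hT]
    refine Finset.sum_congr rfl fun e _ => ?_
    rw [ch_symm (q1 e), ch_symm (p e), ch_symm (q2 e)]
  · refine ⟨∑ e : Sym2 V, |N e|, ?_⟩
    intro x y h
    obtain ⟨e, he, h'⟩ := hσne x y h
    have h3 := hN e he x y h'
    have h4 : |N e| ≤ ∑ e : Sym2 V, |N e| :=
      Finset.single_le_sum (f := fun e => |N e|) (fun e _ => abs_nonneg _) (Finset.mem_univ e)
    have h5 := le_abs_self (N e)
    constructor <;> linarith [h3.1, h3.2]
  · intro x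
    have hlin : bd σ x = ∑ e : Sym2 V, s e * (bd (ch (q1 e) (m1 e)) x + bd (ch (p e) (n e)) x +
        bd (ch (q2 e) (m2 e)) x) := by
      unfold bd
      simp only [hσ, hT]
      rw [← Finset.sum_add_distrib, ← Finset.sum_add_distrib, ← Finset.sum_add_distrib]
      refine Finset.sum_congr rfl fun e _ => ?_
      ring
    have hterm : ∀ e : Sym2 V, s e * (bd (ch (q1 e) (m1 e)) x + bd (ch (p e) (n e)) x +
        bd (ch (q2 e) (m2 e)) x) = s e * ((fun v => if c v = x then (1 : ZMod 2) else 0) (hd e) +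
          (fun v => if c v = x then (1 : ZMod 2) else 0) (tl e)) := by
      intro e
      by_cases hz : s e = 0
      · rw [hz, zero_mul, zero_mul]
      · have he := hse e hz
        rw [(hW (q1 e) (m1 e) (h1w e he)).2.1 x, (hW (p e) (n e) (hM.walk e he)).2.1 x,
          (hW (q2 e) (m2 e) (h2w e he)).2.1 x, h10 e he, h1m e he, h20 e he, h2m e he]
        congr 1
        have k : ∀ a b c d : ZMod 2, a + b + (b + c) + (c + d) = a + d := by decide
        exact k _ _ _ _
    rw [hlin, Finset.sum_congr rfl fun e _ => hterm e,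
      hH V G s (fun v => if c v = x then (1 : ZMod 2) else 0) hs]
    refine Finset.sum_eq_zero fun v _ => ?_
    rw [heven v, mul_zero]
  · intro x y hk
    by_contra hne
    obtain ⟨e, he, h'⟩ := hσne x y hne
    apply hk
    rcases hTne e x y h' with h | h | h
    · obtain ⟨i, hi, h3⟩ := ch_ne _ _ _ _ h
      left
      refine ⟨hd e, ?_⟩
      have k1 := h1B e he i hi.le
      have k2 := h1B e he (i + 1) hi
      rcases h3 with ⟨h3, h4⟩ | ⟨h3, h4⟩
      · rw [← h3, ← h4]
        exact ⟨k1, k2⟩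
      · rw [← h3, ← h4]
        exact ⟨k2, k1⟩
    · obtain ⟨i, hi, h3⟩ := ch_ne _ _ _ _ h
      exact Or.inr ⟨e, he, i, hi, h3⟩
    · obtain ⟨i, hi, h3⟩ := ch_ne _ _ _ _ h
      left
      refine ⟨tl e, ?_⟩
      have k1 := h2B e he i hi.le
      have k2 := h2B e he (i + 1) hi
      rcases h3 with ⟨h3, h4⟩ | ⟨h3, h4⟩
      · rw [← h3, ← h4]
        exact ⟨k1, k2⟩
      · rw [← h3, ← h4]
        exact ⟨k2, k1⟩
  · intro e he
    have hpos := hM.pos e he
    -- the first step of the path is inside no blob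
    have hnb : ∀ w, ¬ (p e 0 ∈ B w ∧ p e 1 ∈ B w) := by
      rintro w ⟨hw0, hw1⟩
      have e1 : w = hd e := by
        by_contra hne
        exact Set.disjoint_left.1 (hM.dis w (hd e) hne) hw0 (hM.st e he)
      rcases Nat.lt_or_ge 1 (n e) with hlt | hge
      · exact hM.int e he 1 one_pos hlt w hw1
      · have hn1 : n e = 1 := le_antisymm hge hpos
        have hen := hM.en e he
        rw [hn1] at hen
        have e2 : w = tl e := by
          by_contra hne
          exact Set.disjoint_left.1 (hM.dis w (tl e) hne) hw1 hen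
        exact hd_ne_tl he (e1.symm.trans e2)
    have hq : ∀ (q : ℕ → ℤ × ℤ) (m : ℕ) (w : V), (∀ i ≤ m, q i ∈ B w) →
        ch q m (p e 0) (p e 1) = 0 := by
      intro q m w hqB
      by_contra hne
      obtain ⟨i, hi, h3⟩ := ch_ne _ _ _ _ hne
      have k1 := hqB i hi.le
      have k2 := hqB (i + 1) hi
      rcases h3 with ⟨h3, h4⟩ | ⟨h3, h4⟩
      · rw [h3] at k1
        rw [h4] at k2
        exact hnb w ⟨k1, k2⟩
      · rw [h3] at k1
        rw [h4] at k2
        exact hnb w ⟨k2, k1⟩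
    have hsingle : σ (p e 0) (p e 1) = s e * T e (p e 0) (p e 1) := by
      simp only [hσ]
      refine Finset.sum_eq_single e ?_ ?_
      · intro e' _ hne
        by_cases hz : s e' = 0
        · rw [hz, zero_mul]
        · have he' := hse e' hz
          have t1 := hq (q1 e') (m1 e') (hd e') (h1B e' he')
          have t3 := hq (q2 e') (m2 e') (tl e') (h2B e' he')
          have t2 : ch (p e') (n e') (p e 0) (p e 1) = 0 := by
            by_contra hcon
            obtain ⟨i, hi, h3⟩ := ch_ne _ _ _ _ hcon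
            rcases h3 with ⟨h3, _⟩ | ⟨_, h3⟩
            · exact hM.pdis e' he' e he hne i hi.le 0 (Nat.zero_le _) h3
            · exact hM.pdis e' he' e he hne (i + 1) hi 0 (Nat.zero_le _) h3
          simp only [hT, t1, t2, t3, add_zero, mul_zero]
      · intro h
        exact absurd (Finset.mem_univ e) h
    have t1 := hq (q1 e) (m1 e) (hd e) (h1B e he)
    have t3 := hq (q2 e) (m2 e) (tl e) (h2B e he)
    have t2 : ch (p e) (n e) (p e 0) (p e 1) = 1 := by
      unfold ch
      rw [Finset.sum_eq_single 0]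
      · rw [if_pos]
        exact Or.inl ⟨rfl, rfl⟩
      · intro i hi h0
        rw [if_neg]
        rintro (⟨h3, _⟩ | ⟨_, h3⟩)
        · exact h0 (hM.inj e he i (Finset.mem_range.1 hi).le 0 (Nat.zero_le _) h3)
        · exact Nat.succ_ne_zero i (hM.inj e he (i + 1) (Finset.mem_range.1 hi) 0
            (Nat.zero_le _) h3)
      · intro h
        exact absurd (Finset.mem_range.2 hpos) h
    rw [hsingle]
    simp only [hT, t1, t2, t3, add_zero, zero_add, mul_one]

end PLG
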