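import Pool.Agent.PLG.Api

set_option autoImplicit false

namespace PLG

theorem pth_proof : Stmt_PTH := by
  classical
  intro S B C hS hB hC hBC
  have hex : ∃ n : ℕ, ∃ p : ℕ → ℤ × ℤ, p 0 ∈ B ∧ p n ∈ C ∧ IsW p n ∧ ∀ i ≤ n, p i ∈ S := by
    obtain ⟨x, hx, hxB⟩ := hB
    obtain ⟨y, hy, hyC⟩ := hC
    obtain ⟨n, p, h0, h1, h2, h3⟩ := hS x hx y hy
    exact ⟨n, p, h0 ▸ hxB, h1 ▸ hyC, h2, h3⟩
  obtain ⟨p, hp0, hpn, hw, hpS⟩ := Nat.find_spec hex
  set n := Nat.find hex with hn
  have hmin : ∀ m < n, ¬ ∃ p : ℕ → ℤ × ℤ, p 0 ∈ B ∧ p m ∈ C ∧ IsW p m ∧ ∀ i ≤ m, p i ∈ S :=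
    fun m hm => Nat.find_min hex hm
  refine ⟨n, p, ?_, hp0, hpn, hw, hpS, ?_, ?_⟩
  · rw [Nat.one_le_iff_ne_zero]
    intro h
    rw [h] at hpn
    exact Set.disjoint_left.1 hBC hp0 hpn
  · have key : ∀ i j, i < j → j ≤ n → p i ≠ p j := by
      intro i j hij hj heq
      refine hmin (n - (j - i)) (by omega) ⟨fun k => if k ≤ i then p k else p (k + (j - i)),
        ?_, ?_, ?_, ?_⟩
      · simp only [Nat.zero_le, if_true]
        exact hp0
      · by_cases h : n - (j - i) ≤ i
        · have hjn : j = n := by omega
          have h1 : n - (j - i) = i := by omega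
          simp only [h1, le_refl, if_true]
          rw [heq, hjn]
          exact hpn
        · simp only [h, if_false]
          rw [show n - (j - i) + (j - i) = n by omega]
          exact hpn
      · intro k hk
        by_cases h : k + 1 ≤ i
        · have h' : k ≤ i := by omega
          simp only [h, h', if_true]
          exact hw k (by omega)
        · by_cases h' : k ≤ i
          · have hki : k = i := by omega
            simp only [h, h', if_true, if_false]
            rw [hki, heq, show i + 1 + (j - i) = j + 1 by omega]
            exact hw j (by omega)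
          · simp only [h, h', if_false]
            rw [show k + 1 + (j - i) = k + (j - i) + 1 by omega]
            exact hw _ (by omega)
      · intro k hk
        by_cases h : k ≤ i
        · simp only [h, if_true]
          exact hpS k (by omega)
        · simp only [h, if_false]
          exact hpS _ (by omega)
    intro i hi j hj heq
    rcases lt_trichotomy i j with h | h | h
    · exact (key i j h hj heq).elim
    · exact h
    · exact (key j i h hi heq.symm).elim
  · intro i h0 hi
    constructor
    · intro h
      refine hmin (n - i) (by omega) ⟨fun k => p (k + i), ?_, ?_, ?_, ?_⟩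
      · simp only [zero_add]
        exact h
      · simp only
        rw [show n - i + i = n by omega]
        exact hpn
      · intro k hk
        simp only
        rw [show k + 1 + i = k + i + 1 by omega]
        exact hw _ (by omega)
      · intro k hk
        exact hpS _ (by omega)
    · intro h
      exact hmin i hi ⟨p, hp0, h, fun k hk => hw k (by omega), fun k hk => hpS k (by omega)⟩

end PLG
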