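import Pool.Agent.PLG.Api

/-!
# Module QUO (squad PLG): the dual as a quotient of the set of corners
-/

set_option autoImplicit false

namespace PLG

namespace QUO_

/-- corners are identified along the sides which are not kept -/
def Rel {V : Type} (G : SimpleGraph V) (B : V → Set (ℤ × ℤ)) (n : Sym2 V → ℕ)
    (p : Sym2 V → ℕ → ℤ × ℤ) (a b : ℤ × ℤ) : Prop :=
  ∃ x y, ad x y ∧ ¬ Kept G B n p x y ∧ a = c1 x y ∧ b = c2 x y

end QUO_

open QUO_ in
theorem quo_proof (hA : Stmt_GDA) (hB : Stmt_GDB) (hL : Stmt_LFT) (hD : Stmt_DW2) : Stmt_QUO := by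
  intro V _ G B n p hM
  refine ⟨Quot (Rel G B n p), fun e => Quot.mk _ (c1 (p e 0) (p e 1)),
    fun e => Quot.mk _ (c2 (p e 0) (p e 1)), fun s hs => ⟨fun hev => ?_, ?_⟩⟩
  · obtain ⟨σ, hσ, hbd, hK, hσs⟩ := hL V G B n p hM s hs hev
    obtain ⟨w, hw⟩ := hB σ hσ hbd
    refine ⟨Quot.lift w ?_, fun e he => ?_⟩
    · rintro a b ⟨x, y, hxy, hnk, rfl, rfl⟩
      have h1 := hw x y hxy
      rw [hK x y hnk] at h1
      exact z2_eq_of_add h1.symm
    · have h1 : ad (p e 0) (p e 1) := hM.walk e he 0 (hM.pos e he)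
      have h2 := hw _ _ h1
      rw [hσs e he] at h2
      exact h2
  · rintro ⟨w, hw⟩
    obtain ⟨hsym, hbd⟩ := hA (fun c => w (Quot.mk _ c))
    refine hD V G B n p hM (cb (fun c => w (Quot.mk _ c))) hsym hbd ?_ s hs ?_
    · intro x y hxy hnk
      have h1 : (Quot.mk (Rel G B n p) (c1 x y)) = Quot.mk (Rel G B n p) (c2 x y) :=
        Quot.sound ⟨x, y, hxy, hnk, rfl, rfl⟩
      show w (Quot.mk _ (c1 x y)) + w (Quot.mk _ (c2 x y)) = 0
      rw [h1]
      exact z2_add_self _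
    · intro e he
      exact hw e he

end PLG
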