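import Pool.Agent.PLG.Api

/-!
# PLG, module TBL: from a drawing to blobs
-/

set_option autoImplicit false

namespace PLG

namespace TBL_

theorem dist_scale {δ : ℝ} (hδ : 0 < δ) (a b : ℝ × ℝ) :
    dist (δ⁻¹ • a) (δ⁻¹ • b) = δ⁻¹ * dist a b := by
  rw [dist_smul₀, Real.norm_of_nonneg (inv_nonneg.2 hδ.le)]

theorem lt_scale {δ : ℝ} (hδ : 0 < δ) {a b : ℝ × ℝ} {c : ℝ} (h : c < dist a b) :
    c / δ < dist (δ⁻¹ • a) (δ⁻¹ • b) := by
  rw [dist_scale hδ, div_eq_inv_mul]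
  exact mul_lt_mul_of_pos_left h (inv_pos.2 hδ)

theorem scale_lt {δ : ℝ} (hδ : 0 < δ) {a b : ℝ × ℝ} {c : ℝ} (h : dist a b < c) :
    dist (δ⁻¹ • a) (δ⁻¹ • b) < c / δ := by
  rw [dist_scale hδ, div_eq_inv_mul]
  exact mul_lt_mul_of_pos_left h (inv_pos.2 hδ)

end TBL_

open TBL_

theorem tbl_proof (hCEL : Stmt_CEL) (hCLF : Stmt_CLF) (hTRA : Stmt_TRA) (hTEP : Stmt_TEP)
    (hTDI : Stmt_TDI) : Stmt_TBL := by
  intro V _ G hG
  obtain ⟨p, hp, γ, hγ, hdis⟩ := hG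
  obtain ⟨hC1, hC2, hC3⟩ := hCLF
  obtain ⟨r, hr, hr1, hr2⟩ := hTRA V G p γ hp (fun u v huv => by
    obtain ⟨a1, -, a3, a4, a5⟩ := hγ u v huv
    exact ⟨a1, a3, a4, a5⟩)
  obtain ⟨ε, hε, hε2, hends⟩ := hTEP V G p γ r hr (fun u v huv => by
    obtain ⟨a1, -, a3, a4, -⟩ := hγ u v huv
    exact ⟨a1, a3, a4⟩)
  obtain ⟨η, hη, hηd⟩ := hTDI V G γ ε hε (fun u v huv => (hγ u v huv).1) hdis
  obtain ⟨δ, hδd⟩ : ∃ δ, δ = min r η / 10 := ⟨_, rfl⟩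
  have hmin : 0 < min r η := lt_min hr hη
  have hδ : 0 < δ := by rw [hδd]; positivity
  have hδr : 10 * δ ≤ r := by
    rw [hδd]
    linarith [min_le_left r η]
  have hδη : 10 * δ ≤ η := by
    rw [hδd]
    linarith [min_le_right r η]
  obtain ⟨R, hRd⟩ : ∃ R, R = r / δ := ⟨_, rfl⟩
  have hR : 10 ≤ R := by
    rw [hRd, le_div_iff₀ hδ]
    exact hδr
  have hη10 : 10 ≤ η / δ := by
    rw [le_div_iff₀ hδ]
    exact hδη
  have hsub : Set.Icc ε (1 - ε) ⊆ Set.Icc (0 : ℝ) 1 := fun t ht =>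
    ⟨hε.le.trans ht.1, ht.2.trans (by linarith)⟩
  have hcon : ∀ e ∈ G.edgeSet, ContinuousOn (fun t => δ⁻¹ • γ (hd e) (tl e) t)
      (Set.Icc ε (1 - ε)) := fun e he =>
    (((hγ _ _ (adj_hd_tl he)).1).mono hsub).const_smul δ⁻¹
  refine ⟨fun v => cells (Metric.closedBall (δ⁻¹ • p v) R),
    fun e => cells ((fun t => δ⁻¹ • γ (hd e) (tl e) t) '' Set.Icc ε (1 - ε)), ?_⟩
  constructor
  · intro v
    exact hC1 _ Metric.isBounded_closedBall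
  · intro v
    exact ⟨_, mem_cells_floor (Metric.mem_closedBall_self (by linarith : (0 : ℝ) ≤ R))⟩
  · intro v
    exact hCEL _ (isCompact_closedBall _ _) (convex_closedBall _ _).isPreconnected
  · intro u v huv
    rw [Set.disjoint_iff_inter_eq_empty]
    by_contra hne
    obtain ⟨z, hz, z', hz', hzz⟩ := hC2 _ _ (Set.nonempty_iff_ne_empty.2 hne)
    rw [Metric.mem_closedBall] at hz hz'
    have h1 := lt_scale hδ (hr1 u v huv)
    have h2 : 4 * r / δ = 4 * R := by rw [hRd]; ring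
    rw [h2] at h1
    have h3 := dist_triangle4 (δ⁻¹ • p u) z z' (δ⁻¹ • p v)
    rw [dist_comm (δ⁻¹ • p u) z] at h3
    linarith
  · intro e he
    exact hCEL _ (isCompact_Icc.image_of_continuousOn (hcon e he))
      (isPreconnected_Icc.image _ (hcon e he))
  · intro e he
    refine hC3 _ _ ⟨δ⁻¹ • γ (hd e) (tl e) ε, ⟨ε, ⟨le_rfl, by linarith⟩, rfl⟩, ?_⟩
    rw [Metric.mem_closedBall, hRd]
    exact (scale_lt hδ (hends e he).1).le
  · intro e he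
    refine hC3 _ _ ⟨δ⁻¹ • γ (hd e) (tl e) (1 - ε), ⟨1 - ε, ⟨by linarith, le_rfl⟩, rfl⟩, ?_⟩
    rw [Metric.mem_closedBall, hRd]
    exact (scale_lt hδ (hends e he).2).le
  · intro e he w hw
    rw [Set.disjoint_iff_inter_eq_empty]
    by_contra hne
    obtain ⟨z, ⟨t, ht, rfl⟩, z', hz', hzz⟩ := hC2 _ _ (Set.nonempty_iff_ne_empty.2 hne)
    rw [Metric.mem_closedBall] at hz'
    have h1 := lt_scale hδ (hr2 e he w hw t (hsub ht))
    have h2 : 2 * r / δ = 2 * R := by rw [hRd]; ring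
    rw [h2] at h1
    have h3 := dist_triangle (δ⁻¹ • γ (hd e) (tl e) t) z' (δ⁻¹ • p w)
    have h4 : dist (δ⁻¹ • γ (hd e) (tl e) t) z' ≤ 1 := hzz
    linarith
  · intro e he e' he' hee
    rw [Set.disjoint_iff_inter_eq_empty]
    by_contra hne
    obtain ⟨z, ⟨t, ht, rfl⟩, z', ⟨t', ht', rfl⟩, hzz⟩ :=
      hC2 _ _ (Set.nonempty_iff_ne_empty.2 hne)
    have h1 := lt_scale hδ (hηd e he e' he' hee t ht t' ht')
    have h4 : dist (δ⁻¹ • γ (hd e) (tl e) t) (δ⁻¹ • γ (hd e') (tl e') t') ≤ 1 := hzz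
    linarith

end PLG
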