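import Pool.Agent.PLG.Api

/-! Squad PLG, module TDI: positive distance of the middle parts of two different edges. -/

set_option autoImplicit false

namespace PLG

namespace TDI_

theorem pair_bound (f g : ℝ → ℝ × ℝ) (ε : ℝ) (hε : 0 < ε)
    (hf : ContinuousOn f (Set.Icc 0 1)) (hg : ContinuousOn g (Set.Icc 0 1))
    (hfg : ∀ t ∈ Set.Ioo (0:ℝ) 1, ∀ t' ∈ Set.Ioo (0:ℝ) 1, f t ≠ g t') :
    ∃ η : ℝ, 0 < η ∧ ∀ t ∈ Set.Icc ε (1 - ε), ∀ t' ∈ Set.Icc ε (1 - ε), η < dist (f t) (g t') := by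
  have hsub : Set.Icc ε (1 - ε) ⊆ Set.Icc 0 1 := by
    intro t ht
    exact ⟨by linarith [ht.1], by linarith [ht.2]⟩
  have hsub' : Set.Icc ε (1 - ε) ⊆ Set.Ioo 0 1 := by
    intro t ht
    exact ⟨by linarith [ht.1], by linarith [ht.2]⟩
  have hK : IsCompact (Set.Icc ε (1 - ε) ×ˢ Set.Icc ε (1 - ε)) := isCompact_Icc.prod isCompact_Icc
  have hc : ContinuousOn (fun z : ℝ × ℝ => dist (f z.1) (g z.2))
      (Set.Icc ε (1 - ε) ×ˢ Set.Icc ε (1 - ε)) := by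
    have h1 : ContinuousOn (fun z : ℝ × ℝ => f z.1)
        (Set.Icc ε (1 - ε) ×ˢ Set.Icc ε (1 - ε)) :=
      (hf.mono hsub).comp continuousOn_fst (fun z hz => hz.1)
    have h2 : ContinuousOn (fun z : ℝ × ℝ => g z.2)
        (Set.Icc ε (1 - ε) ×ˢ Set.Icc ε (1 - ε)) :=
      (hg.mono hsub).comp continuousOn_snd (fun z hz => hz.2)
    exact continuous_dist.comp_continuousOn (h1.prodMk h2)
  by_cases hne : (Set.Icc ε (1 - ε) ×ˢ Set.Icc ε (1 - ε)).Nonempty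
  · obtain ⟨z, hz, hmin⟩ := hK.exists_isMinOn hne hc
    have hpos : 0 < dist (f z.1) (g z.2) :=
      dist_pos.2 (hfg z.1 (hsub' hz.1) z.2 (hsub' hz.2))
    refine ⟨dist (f z.1) (g z.2) / 2, by linarith, ?_⟩
    intro t ht t' ht'
    have h1 : dist (f z.1) (g z.2) ≤ dist (f t) (g t') :=
      hmin (show (t, t') ∈ Set.Icc ε (1 - ε) ×ˢ Set.Icc ε (1 - ε) from ⟨ht, ht'⟩)
    linarith
  · refine ⟨1, one_pos, ?_⟩
    intro t ht t' ht'
    exact absurd ⟨(t, t'), ht, ht'⟩ hne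

theorem finite_bound {ι : Type} [Finite ι] (f : ι → ℝ) (hf : ∀ i, 0 < f i) :
    ∃ η : ℝ, 0 < η ∧ ∀ i, η ≤ f i := by
  obtain ⟨i0, h0⟩ := Finite.exists_min (fun o : Option ι => o.elim 1 f)
  refine ⟨i0.elim 1 f, ?_, fun i => h0 (some i)⟩
  cases i0 with
  | none => exact one_pos
  | some i => exact hf i

end TDI_

theorem tdi_proof : Stmt_TDI := by
  classical
  intro V _ G γ ε hε hc hd'
  have key : ∀ q : Sym2 V × Sym2 V, ∃ η : ℝ, 0 < η ∧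
      (q.1 ∈ G.edgeSet → q.2 ∈ G.edgeSet → q.1 ≠ q.2 →
        ∀ t ∈ Set.Icc ε (1 - ε), ∀ t' ∈ Set.Icc ε (1 - ε),
          η < dist (γ (hd q.1) (tl q.1) t) (γ (hd q.2) (tl q.2) t')) := by
    intro q
    by_cases h : q.1 ∈ G.edgeSet ∧ q.2 ∈ G.edgeSet ∧ q.1 ≠ q.2
    · obtain ⟨h1, h2, h3⟩ := h
      obtain ⟨η, hη, hb⟩ := TDI_.pair_bound (γ (hd q.1) (tl q.1)) (γ (hd q.2) (tl q.2)) ε hε
        (hc _ _ (adj_hd_tl h1)) (hc _ _ (adj_hd_tl h2))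
        (hd' _ _ _ _ (adj_hd_tl h1) (adj_hd_tl h2) (by
          rw [mk_hd_tl, mk_hd_tl]
          exact h3))
      exact ⟨η, hη, fun _ _ _ => hb⟩
    · refine ⟨1, one_pos, ?_⟩
      intro h1 h2 h3
      exact absurd ⟨h1, h2, h3⟩ h
  choose f hf hb using key
  obtain ⟨η, hη, hle⟩ := TDI_.finite_bound f hf
  refine ⟨η, hη, ?_⟩
  intro e he e' he' hne t ht t' ht'
  exact lt_of_le_of_lt (hle (e, e')) (hb (e, e') he he' hne t ht t' ht')

end PLG
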