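import Pool.Agent.PLG.Api

/-!
# PLG, module TEP: the ends of the arcs
-/

set_option autoImplicit false

namespace PLG

namespace TEP_

/-- finitely many positive numbers have a common positive lower bound -/
theorem lower {ι : Type*} (s : Finset ι) (P : ι → ℝ → Prop)
    (h : ∀ i ∈ s, ∃ δ : ℝ, 0 < δ ∧ ∀ ε : ℝ, 0 < ε → ε ≤ δ → P i ε) :
    ∃ δ : ℝ, 0 < δ ∧ ∀ i ∈ s, ∀ ε : ℝ, 0 < ε → ε ≤ δ → P i ε := by
  classical
  induction s using Finset.induction_on with
  | empty => exact ⟨1, one_pos, fun i hi => absurd hi (Finset.notMem_empty i)⟩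
  | insert a s _ ih =>
    obtain ⟨δ1, h1, h1'⟩ := ih fun i hi => h i (Finset.mem_insert_of_mem hi)
    obtain ⟨δ2, h2, h2'⟩ := h a (Finset.mem_insert_self _ _)
    refine ⟨min δ1 δ2, lt_min h1 h2, fun i hi ε hε hle => ?_⟩
    rcases Finset.mem_insert.1 hi with rfl | hi
    · exact h2' ε hε (hle.trans (min_le_right _ _))
    · exact h1' i hi ε hε (hle.trans (min_le_left _ _))

end TEP_

open TEP_ in
theorem tep_proof : Stmt_TEP := by
  intro V _ G p γ r hr hγ
  classical
  obtain ⟨δ, hδ, h⟩ := lower (Finset.univ : Finset (Sym2 V)) (fun e ε => e ∈ G.edgeSet →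
    dist (γ (hd e) (tl e) ε) (p (hd e)) < r ∧ dist (γ (hd e) (tl e) (1 - ε)) (p (tl e)) < r) (by
      intro e _
      by_cases he : e ∈ G.edgeSet
      · obtain ⟨hc, h0, h1⟩ := hγ _ _ (adj_hd_tl he)
        rw [Metric.continuousOn_iff] at hc
        obtain ⟨δ1, hδ1, h1'⟩ := hc 0 ⟨le_rfl, zero_le_one⟩ r hr
        obtain ⟨δ2, hδ2, h2'⟩ := hc 1 ⟨zero_le_one, le_rfl⟩ r hr
        refine ⟨min (min (δ1 / 2) (δ2 / 2)) (1 / 2), by positivity, fun ε hε hle _ => ?_⟩
        have a1 : ε ≤ δ1 / 2 := hle.trans ((min_le_left _ _).trans (min_le_left _ _))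
        have a2 : ε ≤ δ2 / 2 := hle.trans ((min_le_left _ _).trans (min_le_right _ _))
        have a3 : ε ≤ 1 / 2 := hle.trans (min_le_right _ _)
        refine ⟨?_, ?_⟩
        · rw [← h0]
          refine h1' ε ⟨hε.le, by linarith⟩ ?_
          rw [Real.dist_eq, sub_zero, abs_of_pos hε]
          linarith
        · rw [← h1]
          refine h2' (1 - ε) ⟨by linarith, by linarith⟩ ?_
          rw [Real.dist_eq, show 1 - ε - 1 = -ε by ring, abs_neg, abs_of_pos hε]
          linarith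
      · exact ⟨1, one_pos, fun ε _ _ h => absurd h he⟩)
  refine ⟨min δ (1 / 4), by positivity, ?_, fun e he => ?_⟩
  · exact lt_of_le_of_lt (min_le_right _ _) (by norm_num)
  · exact h e (Finset.mem_univ e) (min δ (1 / 4)) (by positivity) (min_le_left _ _) he

end PLG
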