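import Pool.Agent.PLG.Api

set_option autoImplicit false

namespace PLG

namespace TRA_

theorem low {ι : Type} [Finite ι] (f : ι → ℝ) (hf : ∀ i, 0 < f i) :
    ∃ r : ℝ, 0 < r ∧ ∀ i, r < f i := by
  rcases isEmpty_or_nonempty ι with h | h
  · exact ⟨1, one_pos, fun i => (h.false i).elim⟩
  · obtain ⟨i, hi⟩ := Finite.exists_min f
    refine ⟨f i / 2, by linarith [hf i], fun j => ?_⟩
    linarith [hf i, hi j]

end TRA_

open TRA_ in
theorem tra_proof : Stmt_TRA := by
  classical
  intro V _ G p γ hp hγ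
  have h1 : ∀ x : V × V, 0 < (if x.1 = x.2 then (1 : ℝ) else dist (p x.1) (p x.2)) := by
    intro x
    by_cases h : x.1 = x.2
    · rw [if_pos h]; exact one_pos
    · rw [if_neg h]
      exact dist_pos.2 (fun h' => h (hp h'))
  obtain ⟨r₁, hr₁, h1⟩ := low _ h1
  have h2 : ∀ x : Sym2 V × V, ∃ m : ℝ, 0 < m ∧ (x.1 ∈ G.edgeSet → x.2 ∉ x.1 →
      ∀ t ∈ Set.Icc (0 : ℝ) 1, m ≤ dist (γ (hd x.1) (tl x.1) t) (p x.2)) := by
    rintro ⟨e, w⟩
    by_cases he : e ∈ G.edgeSet
    · by_cases hw : w ∉ e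
      · obtain ⟨hc, h0, h1', ht⟩ := hγ _ _ (adj_hd_tl he)
        have hcont : ContinuousOn (fun t => dist (γ (hd e) (tl e) t) (p w)) (Set.Icc 0 1) :=
          (continuous_id.dist continuous_const : Continuous (fun z : ℝ × ℝ => dist z (p w))).comp_continuousOn hc
        obtain ⟨t₀, ht₀, hmin⟩ := isCompact_Icc.exists_isMinOn
          (Set.nonempty_Icc.2 (zero_le_one (α := ℝ))) hcont
        refine ⟨dist (γ (hd e) (tl e) t₀) (p w), ?_, fun _ _ t ht' => hmin ht'⟩
        rw [dist_pos]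
        rw [mem_iff_hd_tl, not_or] at hw
        rcases eq_or_lt_of_le ht₀.1 with h3 | h3
        · rw [← h3, h0]
          exact fun h4 => hw.1 (hp h4).symm
        · rcases eq_or_lt_of_le ht₀.2 with h4 | h4
          · rw [h4, h1']
            exact fun h5 => hw.2 (hp h5).symm
          · exact ht t₀ ⟨h3, h4⟩ w
      · exact ⟨1, one_pos, fun _ h => (hw h).elim⟩
    · exact ⟨1, one_pos, fun h => (he h).elim⟩
  choose m hm0 hm using h2
  obtain ⟨r₂, hr₂, h2⟩ := low m hm0
  refine ⟨min r₁ r₂ / 4, by positivity, ?_, ?_⟩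
  · intro u v huv
    have h3 := h1 (u, v)
    simp only [huv, if_false] at h3
    have := min_le_left r₁ r₂
    linarith
  · intro e he w hw t ht
    have h3 := h2 (e, w)
    have h4 := hm (e, w) he hw t ht
    have := min_le_right r₁ r₂
    have : 0 < min r₁ r₂ := lt_min hr₁ hr₂
    simp only at h4
    linarith

end PLG
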