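import Pool.Agent.PLG.Api

/-!
# Squad PLG, module WCH: the chain of a walk
-/

set_option autoImplicit false

namespace PLG

namespace WCH_

/-- the chain of one step -/
def st (a b x y : ℤ × ℤ) : ZMod 2 := if (a = x ∧ b = y) ∨ (a = y ∧ b = x) then 1 else 0

theorem ch_succ (p : ℕ → ℤ × ℤ) (n : ℕ) (x y : ℤ × ℤ) :
    ch p (n + 1) x y = ch p n x y + st (p n) (p (n + 1)) x y := by
  unfold ch st
  rw [Finset.sum_range_succ]

theorem bd_succ (p : ℕ → ℤ × ℤ) (n : ℕ) (x : ℤ × ℤ) :
    bd (ch p (n + 1)) x = bd (ch p n) x + bd (st (p n) (p (n + 1))) x := by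
  unfold bd
  simp only [ch_succ]
  ring

theorem bd_st {a b : ℤ × ℤ} (h : ad a b) (x : ℤ × ℤ) :
    bd (st a b) x = (if a = x then 1 else 0) + (if b = x then 1 else 0) := by
  have hne : a ≠ b := ad_ne h
  rw [bd_eq_sum]
  by_cases ha : a = x
  · have hb : ¬ b = x := fun hb => hne (ha.trans hb.symm)
    rw [if_pos ha, if_neg hb, add_zero]
    have hmem : b ∈ nb x := mem_nb.2 (ha ▸ h)
    rw [Finset.sum_eq_single_of_mem b hmem]
    · unfold st
      rw [if_pos (Or.inl ⟨ha, rfl⟩)]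
    · intro y _ hy
      unfold st
      rw [if_neg]
      rintro (⟨-, h2⟩ | ⟨-, h2⟩)
      · exact hy h2.symm
      · exact hb h2
  · by_cases hb : b = x
    · rw [if_neg ha, if_pos hb, zero_add]
      have hmem : a ∈ nb x := mem_nb.2 (ad_symm (hb ▸ h))
      rw [Finset.sum_eq_single_of_mem a hmem]
      · unfold st
        rw [if_pos (Or.inr ⟨rfl, hb⟩)]
      · intro y _ hy
        unfold st
        rw [if_neg]
        rintro (⟨h1, -⟩ | ⟨h1, -⟩)
        · exact ha h1
        · exact hy h1.symm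
    · rw [if_neg ha, if_neg hb, add_zero]
      refine Finset.sum_eq_zero fun y _ => ?_
      unfold st
      rw [if_neg]
      rintro (⟨h1, -⟩ | ⟨-, h2⟩)
      · exact ha h1
      · exact hb h2

theorem bd_ch (p : ℕ → ℤ × ℤ) (n : ℕ) (h : IsW p n) (x : ℤ × ℤ) :
    bd (ch p n) x = (if p 0 = x then 1 else 0) + (if p n = x then 1 else 0) := by
  induction n with
  | zero =>
    rw [z2_add_self]
    unfold bd ch
    simp
  | succ n ih =>
    rw [bd_succ, ih (fun i hi => h i (by omega)), bd_st (h n (by omega))]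
    have key : ∀ a b c : ZMod 2, (a + b) + (b + c) = a + c := by decide
    exact key _ _ _

theorem step_of (p : ℕ → ℤ × ℤ) (n : ℕ) (x y : ℤ × ℤ) (h : ch p n x y ≠ 0) :
    ∃ i < n, (p i = x ∧ p (i + 1) = y) ∨ (p i = y ∧ p (i + 1) = x) := by
  unfold ch at h
  obtain ⟨i, hi, h2⟩ := Finset.exists_ne_zero_of_sum_ne_zero h
  refine ⟨i, Finset.mem_range.1 hi, ?_⟩
  by_contra hcon
  rw [if_neg hcon] at h2
  exact h2 rfl

end WCH_

open WCH_ in
theorem wch_proof : Stmt_WCH := by
  intro p n h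
  refine ⟨⟨fun x y => ?_, ?_⟩, bd_ch p n h, step_of p n⟩
  · unfold ch
    refine Finset.sum_congr rfl fun i _ => ?_
    congr 1
    exact propext or_comm
  · refine ⟨∑ i ∈ Finset.range (n + 1), (|(p i).1| + |(p i).2|), fun x y hxy => ?_⟩
    obtain ⟨i, hi, h2⟩ := step_of p n x y hxy
    have key : ∀ j ≤ n, |(p j).1| + |(p j).2| ≤
        ∑ i ∈ Finset.range (n + 1), (|(p i).1| + |(p i).2|) := fun j hj =>
      Finset.single_le_sum (f := fun i => |(p i).1| + |(p i).2|) (fun i _ => by positivity)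
        (Finset.mem_range.2 (by omega))
    have hx : ∃ j ≤ n, p j = x := by
      rcases h2 with ⟨h1, -⟩ | ⟨-, h1⟩
      · exact ⟨i, by omega, h1⟩
      · exact ⟨i + 1, by omega, h1⟩
    obtain ⟨j, hj, rfl⟩ := hx
    have h3 := key j hj
    have h4 := abs_nonneg (p j).1
    have h5 := abs_nonneg (p j).2
    constructor <;> linarith

end PLG
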