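import Pool.Agent.PLG.GDA
import Pool.Agent.PLG.GDB
import Pool.Agent.PLG.WCH
import Pool.Agent.PLG.PTH
import Pool.Agent.PLG.DCN
import Pool.Agent.PLG.HTL
import Pool.Agent.PLG.LFT
import Pool.Agent.PLG.DW1
import Pool.Agent.PLG.DW2
import Pool.Agent.PLG.QUO
import Pool.Agent.PLG.BLM
import Pool.Agent.PLG.CEL
import Pool.Agent.PLG.CLF
import Pool.Agent.PLG.TRA
import Pool.Agent.PLG.TEP
import Pool.Agent.PLG.TDI
import Pool.Agent.PLG.TBL
import Pool.Agent.PLG.Bridge

/-!
# A topological drawing of a finite graph gives an abstract dual over `F₂`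
-/

set_option autoImplicit false

namespace PLG

/-- the cycle space of a drawn graph is the cut space of an abstract dual -/
theorem dual_of_drawn : Stmt_DUAL := by
  intro V _ G h
  obtain ⟨B, S, hBS⟩ := tbl_proof cel_proof clf_proof tra_proof tep_proof tdi_proof V G h
  obtain ⟨n, p, hm⟩ := blm_proof pth_proof V G B S hBS
  exact quo_proof gda_proof gdb_proof (lft_proof wch_proof htl_proof)
    (dw2_proof dw1_proof dcn_proof htl_proof) V G B n p hm

/-- drawings restrict to subgraphs -/
theorem Drawn.mono {V : Type} {G X : SimpleGraph V} (h : Drawn G) (hX : X ≤ G) : Drawn X := by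
  obtain ⟨p, hp, γ, h1, h2⟩ := h
  exact ⟨p, hp, γ, fun u v huv => h1 u v (hX huv),
    fun u v x y huv hxy hne => h2 u v x y (hX huv) (hX hxy) hne⟩

/-- a drawn graph has a face system -/
theorem faceSys_of_drawn {V : Type} [Fintype V] [DecidableEq V] {G : SimpleGraph V}
    (h : Drawn G) : Pool.Agent.TCH.FaceSys G :=
  faceSys_of_hasDual G (dual_of_drawn V G h)

/-- a drawn graph has a face system -/
theorem faceSys_of_dr {V : Type} [Fintype V] [DecidableEq V] {G : SimpleGraph V}
    (h : Pool.Agent.TCH.Dr G) : Pool.Agent.TCH.FaceSys G :=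
  faceSys_of_drawn h

end PLG
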