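import Pool.Agent.PLG.Defs

/-!
# Squad PLG: statements of the modules
-/

set_option autoImplicit false

namespace PLG

/-! ## The grid -/

/-- coboundaries are even -/
def Stmt_GDA : Prop :=
  ∀ (w : ℤ × ℤ → ZMod 2), (∀ x y, cb w x y = cb w y x) ∧ ∀ x, bd (cb w) x = 0

/-- even chains are coboundaries: `w (i,j) = ∑_{j' ≥ j} σ (i-1,j') (i,j')` -/
def Stmt_GDB : Prop :=
  ∀ σ : ℤ × ℤ → ℤ × ℤ → ZMod 2, Chn σ → (∀ x, bd σ x = 0) →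
    ∃ w : ℤ × ℤ → ZMod 2, ∀ x y, ad x y → σ x y = cb w x y

/-- the chain of a walk -/
def Stmt_WCH : Prop :=
  ∀ (p : ℕ → ℤ × ℤ) (n : ℕ), IsW p n → Chn (ch p n) ∧
    (∀ x, bd (ch p n) x = (if p 0 = x then 1 else 0) + (if p n = x then 1 else 0)) ∧
    (∀ x y, ch p n x y ≠ 0 → ∃ i < n, (p i = x ∧ p (i + 1) = y) ∨ (p i = y ∧ p (i + 1) = x))

/-- shortest paths between two sets -/
def Stmt_PTH : Prop :=
  ∀ S B C : Set (ℤ × ℤ), Con S → (S ∩ B).Nonempty → (S ∩ C).Nonempty → Disjoint B C →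
    ∃ (n : ℕ) (p : ℕ → ℤ × ℤ), 1 ≤ n ∧ p 0 ∈ B ∧ p n ∈ C ∧ IsW p n ∧ (∀ i ≤ n, p i ∈ S) ∧
      (∀ i ≤ n, ∀ j ≤ n, p i = p j → i = j) ∧ ∀ i, 0 < i → i < n → p i ∉ B ∧ p i ∉ C

/-- double counting in a finite set -/
def Stmt_DCN : Prop :=
  ∀ (X : Finset (ℤ × ℤ)) (σ : ℤ × ℤ → ℤ × ℤ → ZMod 2), (∀ x y, σ x y = σ y x) →
    (∀ x ∈ X, bd σ x = 0) →
    ∑ x ∈ X, ∑ y ∈ ({(x.1 + 1, x.2), (x.1 - 1, x.2), (x.1, x.2 + 1), (x.1, x.2 - 1)} :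
      Finset (ℤ × ℤ)).filter (fun y => y ∉ X), σ x y = 0

/-! ## From a grid model to the dual -/

/-- sums over the edges and sums over the vertices -/
def Stmt_HTL : Prop :=
  ∀ (V : Type) [Fintype V] [DecidableEq V] (G : SimpleGraph V) (s : Sym2 V → ZMod 2)
    (f : V → ZMod 2), (∀ e, e ∉ G.edgeSet → s e = 0) →
    ∑ e : Sym2 V, s e * (f (hd e) + f (tl e)) = ∑ v, f v * ∑ u, s s(v, u)

/-- an even chain of `G` lifts to the grid. Uses WCH, HTL -/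
def Stmt_LFT : Prop :=
  ∀ (V : Type) [Fintype V] (G : SimpleGraph V) (B : V → Set (ℤ × ℤ)) (n : Sym2 V → ℕ)
    (p : Sym2 V → ℕ → ℤ × ℤ), Mdl G B n p → ∀ s : Sym2 V → ZMod 2,
    (∀ e, e ∉ G.edgeSet → s e = 0) → (∀ v, ∑ u, s s(v, u) = 0) →
    ∃ σ : ℤ × ℤ → ℤ × ℤ → ZMod 2, Chn σ ∧ (∀ x, bd σ x = 0) ∧
      (∀ x y, ¬ Kept G B n p x y → σ x y = 0) ∧ ∀ e ∈ G.edgeSet, σ (p e 0) (p e 1) = s e

/-- an even chain which vanishes off the kept pairs is constant along the paths -/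
def Stmt_DW1 : Prop :=
  ∀ (V : Type) [Fintype V] (G : SimpleGraph V) (B : V → Set (ℤ × ℤ)) (n : Sym2 V → ℕ)
    (p : Sym2 V → ℕ → ℤ × ℤ), Mdl G B n p → ∀ σ : ℤ × ℤ → ℤ × ℤ → ZMod 2,
    (∀ x y, σ x y = σ y x) → (∀ x, bd σ x = 0) →
    (∀ x y, ad x y → ¬ Kept G B n p x y → σ x y = 0) →
    ∀ e ∈ G.edgeSet, ∀ i < n e, σ (p e i) (p e (i + 1)) = σ (p e 0) (p e 1)

/-- such a chain gives an even chain of `G`. Uses DW1, DCN, HTL -/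
def Stmt_DW2 : Prop :=
  ∀ (V : Type) [Fintype V] (G : SimpleGraph V) (B : V → Set (ℤ × ℤ)) (n : Sym2 V → ℕ)
    (p : Sym2 V → ℕ → ℤ × ℤ), Mdl G B n p → ∀ σ : ℤ × ℤ → ℤ × ℤ → ZMod 2,
    (∀ x y, σ x y = σ y x) → (∀ x, bd σ x = 0) →
    (∀ x y, ad x y → ¬ Kept G B n p x y → σ x y = 0) →
    ∀ s : Sym2 V → ZMod 2, (∀ e, e ∉ G.edgeSet → s e = 0) →
      (∀ e ∈ G.edgeSet, s e = σ (p e 0) (p e 1)) → ∀ v, ∑ u, s s(v, u) = 0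

/-- the dual. Uses GDA, GDB, LFT, DW2 -/
def Stmt_QUO : Prop :=
  ∀ (V : Type) [Fintype V] (G : SimpleGraph V) (B : V → Set (ℤ × ℤ)) (n : Sym2 V → ℕ)
    (p : Sym2 V → ℕ → ℤ × ℤ), Mdl G B n p → HasDual G

/-- from blobs to paths. Uses PTH -/
def Stmt_BLM : Prop :=
  ∀ (V : Type) [Fintype V] (G : SimpleGraph V) (B : V → Set (ℤ × ℤ)) (S : Sym2 V → Set (ℤ × ℤ)),
    Blob G B S → ∃ (n : Sym2 V → ℕ) (p : Sym2 V → ℕ → ℤ × ℤ), Mdl G B n p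

/-! ## From a drawing to blobs -/

/-- the squares meeting a compact connected set are connected -/
def Stmt_CEL : Prop :=
  ∀ M : Set (ℝ × ℝ), IsCompact M → IsPreconnected M → Con (cells M)

/-- cells of a bounded set; distances -/
def Stmt_CLF : Prop :=
  (∀ M : Set (ℝ × ℝ), Bornology.IsBounded M → (cells M).Finite) ∧
  (∀ (M M' : Set (ℝ × ℝ)), (cells M ∩ cells M').Nonempty → ∃ z ∈ M, ∃ z' ∈ M', dist z z' ≤ 1) ∧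
  (∀ (M M' : Set (ℝ × ℝ)), (M ∩ M').Nonempty → (cells M ∩ cells M').Nonempty)

/-- the radius of the discs -/
def Stmt_TRA : Prop :=
  ∀ (V : Type) [Fintype V] (G : SimpleGraph V) (p : V → ℝ × ℝ) (γ : V → V → ℝ → ℝ × ℝ),
    Function.Injective p →
    (∀ u v, G.Adj u v → ContinuousOn (γ u v) (Set.Icc 0 1) ∧ γ u v 0 = p u ∧ γ u v 1 = p v ∧
      ∀ t ∈ Set.Ioo (0:ℝ) 1, ∀ w, γ u v t ≠ p w) →
    ∃ r : ℝ, 0 < r ∧ (∀ u v, u ≠ v → 4 * r < dist (p u) (p v)) ∧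
      ∀ e ∈ G.edgeSet, ∀ w, w ∉ e → ∀ t ∈ Set.Icc (0:ℝ) 1, 2 * r < dist (γ (hd e) (tl e) t) (p w)

/-- the ends of the arcs -/
def Stmt_TEP : Prop :=
  ∀ (V : Type) [Fintype V] (G : SimpleGraph V) (p : V → ℝ × ℝ) (γ : V → V → ℝ → ℝ × ℝ) (r : ℝ),
    0 < r →
    (∀ u v, G.Adj u v → ContinuousOn (γ u v) (Set.Icc 0 1) ∧ γ u v 0 = p u ∧ γ u v 1 = p v) →
    ∃ ε : ℝ, 0 < ε ∧ ε < 1 / 2 ∧ ∀ e ∈ G.edgeSet, dist (γ (hd e) (tl e) ε) (p (hd e)) < r ∧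
      dist (γ (hd e) (tl e) (1 - ε)) (p (tl e)) < r

/-- the distance of the middle parts -/
def Stmt_TDI : Prop :=
  ∀ (V : Type) [Fintype V] (G : SimpleGraph V) (γ : V → V → ℝ → ℝ × ℝ) (ε : ℝ), 0 < ε →
    (∀ u v, G.Adj u v → ContinuousOn (γ u v) (Set.Icc 0 1)) →
    (∀ u v x y, G.Adj u v → G.Adj x y → s(u, v) ≠ s(x, y) →
      ∀ t ∈ Set.Ioo (0:ℝ) 1, ∀ t' ∈ Set.Ioo (0:ℝ) 1, γ u v t ≠ γ x y t') →
    ∃ η : ℝ, 0 < η ∧ ∀ e ∈ G.edgeSet, ∀ e' ∈ G.edgeSet, e ≠ e' →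
      ∀ t ∈ Set.Icc ε (1 - ε), ∀ t' ∈ Set.Icc ε (1 - ε),
        η < dist (γ (hd e) (tl e) t) (γ (hd e') (tl e') t')

/-- from a drawing to blobs. Uses CEL, CLF, TRA, TEP, TDI -/
def Stmt_TBL : Prop :=
  ∀ (V : Type) [Fintype V] (G : SimpleGraph V), Drawn G →
    ∃ (B : V → Set (ℤ × ℤ)) (S : Sym2 V → Set (ℤ × ℤ)), Blob G B S

/-- the theorem. Uses TBL, BLM, QUO -/
def Stmt_DUAL : Prop := ∀ (V : Type) [Fintype V] (G : SimpleGraph V), Drawn G → HasDual G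

end PLG
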